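import Pool.Agent.H59.BE.Dfs

/-! Kernel evaluation of the search (about two minutes). -/

set_option autoImplicit false

namespace H59.BE

theorem chk_same : ∀ c, ∀ t ∈ nxt true c, chk true 8 1 t t (St.init t) = true := by
  decide +kernel

theorem chk_diff_g : ∀ t ∈ nxt false .g, chk false 8 1 t t (St.init t) = true := by
  decide +kernel

theorem chk_diff_a : ∀ t ∈ nxt false .a, chk false 8 1 t t (St.init t) = true := by
  decide +kernel

theorem chk_diff_b : ∀ t ∈ nxt false .b, chk false 8 1 t t (St.init t) = true := by
  decide +kernel

theorem chk_diff_o : ∀ t ∈ nxt false .o, chk false 8 1 t t (St.init t) = true := by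
  decide +kernel

theorem chk_all (same : Bool) (c : Cls) (t : Ty) (ht : t ∈ nxt same c) :
    chk same 8 1 t t (St.init t) = true := by
  cases same
  · cases c
    · exact chk_diff_g t ht
    · exact chk_diff_a t ht
    · exact chk_diff_b t ht
    · exact chk_diff_o t ht
  · exact chk_same c t ht

/-- every valid type is dominated by a minimal one with the same classes -/
def dom (t t' : Ty) : Bool :=
  t'.L = t.L && t'.R = t.R && (t'.k = t.k || !(t.k = .mc || t.k = .cm || t'.k = .mc || t'.k = .cm)) &&
  (optL t').all (fun g => decide (g ∈ optL t)) && (optR t').all (fun g => decide (g ∈ optR t)) &&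
  (opt2 t').all (fun g => decide (g ∈ opt2 t))

theorem dom_all : ∀ same : Bool, ∀ t : Ty, valid same t = true →
    ∃ t' ∈ nxt same t.L, dom t t' = true := by
  decide +kernel

end H59.BE
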