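import Mathlib

/-!
# Near-AABB colourings: the finite check behind the opening lemma (MP_d0d043_co, part E)

Colours `α` (inside `A`), `β` (inside `B`), `γ` (between `A` and `B`), `γ ≠ α, β`; `same` says
`α = β`.  An edge colour has a class `g`, `a`, `b`, `o` (`γ`, `α`, `β`, other; if `α = β` the class
is `a`).  Every vertex of the closed cycle has two option groups `P` and `Q`:
`P` belongs to a colour `p`: kind `m` (`p = α`): option `a`; kind `c` (`p = γ`): option `d`;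
kind `f` (other): options `a`, `d`.  `Q` belongs to a colour `q ≠ p`: kind `m` (`q = β`): option
`b`; kind `c` (`q = γ`): option `c`; kind `f`: options `b`, `c`.  The core vertices of `A` have kind
`mc`, those of `B` have kind `cm`.  If `α = β` there are also exceptional vertices of kind `mx`.
A group is blocked when the kept edge has the colour `p` resp. `q`: status `l` if this happens when
the left edge is removed (the right edge has this colour), `r` if the left edge has this colour.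
The options are the elements `a = (0,1,0)`, `b = (0,0,1)`, `c = (1,0,0)`, `d = (-1,0,0)` of
`ℤ × ZMod 2 × ZMod 2`.
-/

set_option autoImplicit false

namespace H59.BE

/-- class of an edge colour -/
inductive Cls
  | g | a | b | o
  deriving DecidableEq, Fintype

/-- block status of an option group -/
inductive Blk
  | n | l | r
  deriving DecidableEq, Fintype

/-- kinds of vertices -/
inductive Kd
  | mc | cm | mm | mf | fm | ff | cf | fc | mx
  deriving DecidableEq, Fintype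

/-- vertex types: kind, class of the left and right edge, status of the two option groups -/
structure Ty where
  k : Kd
  L : Cls
  R : Cls
  p : Blk
  q : Blk
  deriving DecidableEq, Fintype

/-- the four basic options -/
inductive Gn
  | a | b | c | d
  deriving DecidableEq

/-- the value group -/
abbrev Gp : Type := ℤ × ZMod 2 × ZMod 2

/-- value of an option -/
def Gn.val : Gn → Gp
  | .a => (0, 1, 0)
  | .b => (0, 0, 1)
  | .c => (1, 0, 0)
  | .d => (-1, 0, 0)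

/-- first option group (not for `mx`) -/
def Kd.P : Kd → List Gn
  | .mc => [.a]
  | .mm => [.a]
  | .mf => [.a]
  | .cm => [.d]
  | .cf => [.d]
  | _ => [.a, .d]

/-- second option group (not for `mx`) -/
def Kd.Q : Kd → List Gn
  | .mc => [.c]
  | .fc => [.c]
  | .cm => [.b]
  | .mm => [.b]
  | .fm => [.b]
  | _ => [.b, .c]

/-- options of an `mx` vertex when an edge of the given class is kept -/
def mxO : Cls → List Gn
  | .g => [.a, .b]
  | .a => [.c, .d]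
  | _ => [.a, .b, .c, .d]

/-- options when the left edge is removed and the right edge is kept -/
def optL (t : Ty) : List Gn :=
  match t.k with
  | .mx => mxO t.R
  | _ => (if t.p = .l then [] else t.k.P) ++ (if t.q = .l then [] else t.k.Q)

/-- options when the right edge is removed and the left edge is kept -/
def optR (t : Ty) : List Gn :=
  match t.k with
  | .mx => mxO t.L
  | _ => (if t.p = .r then [] else t.k.P) ++ (if t.q = .r then [] else t.k.Q)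

/-- options when both edges are removed -/
def opt2 (t : Ty) : List (Gn × Gn) :=
  match t.k with
  | .mx => [(.a, .c), (.a, .d), (.b, .c), (.b, .d)]
  | _ => t.k.P.flatMap fun g => t.k.Q.map fun h => (g, h)

/-- all options (as lists of basic options); the two Booleans say whether the left and the right
edge are removed -/
def opts (t : Ty) : Bool → Bool → List (List Gn)
  | false, false => [[]]
  | true, false => (optL t).map fun g => [g]
  | false, true => (optR t).map fun g => [g]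
  | true, true => (opt2 t).map fun p => [p.1, p.2]

/-- value of a list of options -/
def lval (l : List Gn) : Gp := (l.map Gn.val).sum

/-- the group `P` can be blocked by an edge of this class -/
def okP : Kd → Cls → Bool
  | .mc, .a => true
  | .mm, .a => true
  | .mf, .a => true
  | .cm, .g => true
  | .cf, .g => true
  | .fm, .b => true
  | .fm, .o => true
  | .ff, .b => true
  | .ff, .o => true
  | .fc, .b => true
  | .fc, .o => true
  | _, _ => false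

/-- the group `Q` can be blocked by an edge of this class -/
def okQ (same : Bool) : Kd → Cls → Bool
  | .mc, .g => true
  | .fc, .g => true
  | .cm, .a => same
  | .cm, .b => !same
  | .mm, .a => same
  | .mm, .b => !same
  | .fm, .a => same
  | .fm, .b => !same
  | .mf, .a => !same
  | .mf, .o => true
  | .ff, .a => !same
  | .ff, .o => true
  | .cf, .a => !same
  | .cf, .o => true
  | _, _ => false

/-- blocking by an edge of this class is certain -/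
def muP : Kd → Cls → Bool
  | .mc, .a => true
  | .mm, .a => true
  | .mf, .a => true
  | .cm, .g => true
  | .cf, .g => true
  | _, _ => false

def muQ (same : Bool) : Kd → Cls → Bool
  | .mc, .g => true
  | .fc, .g => true
  | .cm, .a => same
  | .cm, .b => !same
  | .mm, .a => same
  | .mm, .b => !same
  | .fm, .a => same
  | .fm, .b => !same
  | _, _ => false

/-- valid types -/
def valid (same : Bool) (t : Ty) : Bool :=
  (t.L ≠ t.R || t.L = .o) &&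
  (!same || (t.L ≠ .b && t.R ≠ .b && t.k ≠ .mm)) &&
  (same || t.k ≠ .mx) &&
  (t.k = .mx ||
    ((t.p = .n || t.p ≠ t.q) &&
    (t.p ≠ .l || okP t.k t.R) && (t.p ≠ .r || okP t.k t.L) &&
    (t.q ≠ .l || okQ same t.k t.R) && (t.q ≠ .r || okQ same t.k t.L) &&
    (!(muP t.k t.R) || t.p = .l) && (!(muP t.k t.L) || t.p = .r) &&
    (!(muQ same t.k t.R) || t.q = .l) && (!(muQ same t.k t.L) || t.q = .r)))

/-- the edge between vertices of these kinds with this class is nonstandard -/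
def nst (same : Bool) : Kd → Kd → Cls → Bool
  | .mc, .mc, .a => false
  | .mc, .cm, .g => false
  | .cm, .mc, .g => false
  | .cm, .cm, .a => !same
  | .cm, .cm, .b => same
  | _, _, _ => true

/-- coupling of consecutive vertices `p` (left), `v` (right) -/
def coup (same : Bool) (p v : Ty) : Bool := p.R = v.L && nst same p.k v.k v.L

/-! ### masks -/

/-- finite subsets of `Gp` as four bit masks -/
structure M4 where
  p00 : ℕ
  p10 : ℕ
  p01 : ℕ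
  p11 : ℕ

def M4.zero : M4 := ⟨0, 0, 0, 0⟩
def M4.one : M4 := ⟨65536, 0, 0, 0⟩

def M4.uni (m m' : M4) : M4 :=
  ⟨m.p00 ||| m'.p00, m.p10 ||| m'.p10, m.p01 ||| m'.p01, m.p11 ||| m'.p11⟩

def M4.sh (m : M4) : Gn → M4
  | .a => ⟨m.p10, m.p00, m.p11, m.p01⟩
  | .b => ⟨m.p01, m.p11, m.p00, m.p10⟩
  | .c => ⟨m.p00 <<< 1, m.p10 <<< 1, m.p01 <<< 1, m.p11 <<< 1⟩
  | .d => ⟨m.p00 >>> 1, m.p10 >>> 1, m.p01 >>> 1, m.p11 >>> 1⟩

def M4.addL (m : M4) : List Gn → M4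
  | [] => M4.zero
  | g :: l => (m.sh g).uni (m.addL l)

def M4.addP (m : M4) : List (Gn × Gn) → M4
  | [] => M4.zero
  | g :: l => ((m.sh g.1).sh g.2).uni (m.addP l)

def M4.get (m : M4) (x y : ZMod 2) : ℕ :=
  if x = 0 then (if y = 0 then m.p00 else m.p01) else (if y = 0 then m.p10 else m.p11)

def M4.Mem (m : M4) (g : Gp) : Prop :=
  ∃ n : ℕ, (n : ℤ) = g.1 + 16 ∧ (m.get g.2.1 g.2.2).testBit n = true

def M4.zin (m : M4) : Bool := m.p00.testBit 16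

/-- is zero in the sum of the set and the list of options -/
def M4.zinL (m : M4) : List Gn → Bool
  | [] => false
  | .a :: l => m.p10.testBit 16 || m.zinL l
  | .b :: l => m.p01.testBit 16 || m.zinL l
  | .c :: l => m.p00.testBit 15 || m.zinL l
  | .d :: l => m.p00.testBit 17 || m.zinL l

theorem M4.mem_of_zin {m : M4} (h : m.zin = true) : m.Mem 0 :=
  ⟨16, by simp, by simpa [M4.get, M4.zin] using h⟩

theorem M4.not_mem_zero {g : Gp} (h : M4.zero.Mem g) : False := by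
  obtain ⟨n, _, h⟩ := h
  simp only [M4.get, M4.zero] at h
  split_ifs at h <;> simp at h

theorem M4.mem_one {g : Gp} (h : M4.one.Mem g) : g = 0 := by
  obtain ⟨n, hn, h⟩ := h
  obtain ⟨z, x, y⟩ := g
  simp only [M4.get, M4.one] at h hn
  have h65 : (65536 : ℕ) = 2 ^ 16 := by norm_num
  split_ifs at h with h1 h2 h2
  · rw [h65, Nat.testBit_two_pow] at h
    have h3 : 16 = n := by simpa using h
    subst h3
    have : z = 0 := by push_cast at hn; linarith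
    subst this h1 h2
    rfl
  all_goals simp at h

theorem M4.mem_uni {m m' : M4} {g : Gp} (h : (m.uni m').Mem g) : m.Mem g ∨ m'.Mem g := by
  obtain ⟨n, hn, h⟩ := h
  simp only [M4.get, M4.uni] at h
  unfold M4.Mem M4.get
  split_ifs at h with h1 h2 h2 <;> rw [Nat.testBit_or, Bool.or_eq_true] at h <;>
    rcases h with h | h
  all_goals first
    | exact Or.inl ⟨n, hn, by simpa [h1, h2] using h⟩
    | exact Or.inr ⟨n, hn, by simpa [h1, h2] using h⟩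

theorem z2 : ∀ x : ZMod 2, x = 0 ∨ x = 1 := by decide

theorem M4.mem_sh {m : M4} {t : Gn} {g : Gp} (h : (m.sh t).Mem g) :
    ∃ g', m.Mem g' ∧ g = g' + t.val := by
  obtain ⟨n, hn, h⟩ := h
  obtain ⟨z, x, y⟩ := g
  cases t with
  | a =>
    refine ⟨(z, x + 1, y), ⟨n, hn, ?_⟩, ?_⟩
    · revert h
      simp only [M4.get, M4.sh]
      rcases z2 x with rfl | rfl <;> rcases z2 y with rfl | rfl <;>
        simp [show (1 : ZMod 2) + 1 = 0 from rfl]
    · simp only [Gn.val, Prod.mk_add_mk, add_zero, add_assoc]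
      rw [show (1 : ZMod 2) + 1 = 0 from rfl, add_zero]
  | b =>
    refine ⟨(z, x, y + 1), ⟨n, hn, ?_⟩, ?_⟩
    · revert h
      simp only [M4.get, M4.sh]
      rcases z2 x with rfl | rfl <;> rcases z2 y with rfl | rfl <;>
        simp [show (1 : ZMod 2) + 1 = 0 from rfl]
    · simp only [Gn.val, Prod.mk_add_mk, add_zero, add_assoc]
      rw [show (1 : ZMod 2) + 1 = 0 from rfl, add_zero]
  | c =>
    have key : ∀ p : ℕ, (p <<< 1).testBit n = true → 1 ≤ n ∧ p.testBit (n - 1) = true := by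
      intro p hp
      rw [Nat.testBit_shiftLeft] at hp
      simpa using hp
    have h' : 1 ≤ n ∧ (m.get x y).testBit (n - 1) = true := by
      simp only [M4.get, M4.sh] at h ⊢
      split_ifs at h ⊢ <;> exact key _ h
    refine ⟨(z - 1, x, y), ⟨n - 1, ?_, h'.2⟩, ?_⟩
    · simp only at hn ⊢
      have := h'.1
      push_cast [Nat.cast_sub this]
      linarith
    · simp [Gn.val]
  | d =>
    have key : ∀ p : ℕ, (p >>> 1).testBit n = true → p.testBit (n + 1) = true := by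
      intro p hp
      rw [Nat.testBit_shiftRight] at hp
      rwa [add_comm]
    have h' : (m.get x y).testBit (n + 1) = true := by
      simp only [M4.get, M4.sh] at h ⊢
      split_ifs at h ⊢ <;> exact key _ h
    refine ⟨(z + 1, x, y), ⟨n + 1, ?_, h'⟩, ?_⟩
    · simp only at hn ⊢
      push_cast
      linarith
    · simp [Gn.val]

theorem M4.mem_addL {m : M4} {l : List Gn} {g : Gp} (h : (m.addL l).Mem g) :
    ∃ t ∈ l, ∃ g', m.Mem g' ∧ g = g' + t.val := by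
  induction l with
  | nil => exact absurd h (fun h => M4.not_mem_zero h)
  | cons t l ih =>
    rcases M4.mem_uni h with h | h
    · obtain ⟨g', h1, h2⟩ := M4.mem_sh h
      exact ⟨t, List.mem_cons_self, g', h1, h2⟩
    · obtain ⟨t', h1, h2⟩ := ih h
      exact ⟨t', List.mem_cons_of_mem _ h1, h2⟩

theorem M4.mem_addP {m : M4} {l : List (Gn × Gn)} {g : Gp} (h : (m.addP l).Mem g) :
    ∃ t ∈ l, ∃ g', m.Mem g' ∧ g = g' + (t.1.val + t.2.val) := by
  induction l with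
  | nil => exact absurd h (fun h => M4.not_mem_zero h)
  | cons t l ih =>
    rcases M4.mem_uni h with h | h
    · obtain ⟨g', h1, h2⟩ := M4.mem_sh h
      obtain ⟨g'', h3, h4⟩ := M4.mem_sh h1
      exact ⟨t, List.mem_cons_self, g'', h3, by rw [h2, h4, add_assoc]⟩
    · obtain ⟨t', h1, h2⟩ := ih h
      exact ⟨t', List.mem_cons_of_mem _ h1, h2⟩

theorem M4.mem_zinL {m : M4} {l : List Gn} (h : m.zinL l = true) :
    ∃ t ∈ l, ∃ g', m.Mem g' ∧ g' + t.val = 0 := by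
  induction l with
  | nil => simp [M4.zinL] at h
  | cons t l ih =>
    cases t <;> simp only [M4.zinL, Bool.or_eq_true] at h <;> rcases h with h | h
    · exact ⟨_, List.mem_cons_self, (0, 1, 0), ⟨16, by simp, by simpa [M4.get] using h⟩, by
        simp only [Gn.val, Prod.mk_add_mk]; rfl⟩
    · obtain ⟨t', h1, h2⟩ := ih h
      exact ⟨t', List.mem_cons_of_mem _ h1, h2⟩
    · exact ⟨_, List.mem_cons_self, (0, 0, 1), ⟨16, by simp, by simpa [M4.get] using h⟩, by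
        simp only [Gn.val, Prod.mk_add_mk]; rfl⟩
    · obtain ⟨t', h1, h2⟩ := ih h
      exact ⟨t', List.mem_cons_of_mem _ h1, h2⟩
    · exact ⟨_, List.mem_cons_self, (-1, 0, 0), ⟨15, by simp, by simpa [M4.get] using h⟩, by
        simp [Gn.val]⟩
    · obtain ⟨t', h1, h2⟩ := ih h
      exact ⟨t', List.mem_cons_of_mem _ h1, h2⟩
    · exact ⟨_, List.mem_cons_self, (1, 0, 0), ⟨17, by simp, by simpa [M4.get] using h⟩, by
        simp [Gn.val]⟩
    · obtain ⟨t', h1, h2⟩ := ih h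
      exact ⟨t', List.mem_cons_of_mem _ h1, h2⟩

/-! ### the search -/

/-- state of the search: `K`, `R` closing edge kept, last edge kept / removed; `KF`, `RF` closing
edge removed -/
structure St where
  K : M4
  R : M4
  KF : M4
  RF : M4

def St.init (t : Ty) : St :=
  ⟨M4.zero, M4.one.addL (optR t), M4.one.addL (optL t), M4.one.addP (opt2 t)⟩

def St.step (s : St) (t : Ty) : St :=
  ⟨s.K.uni (s.R.addL (optL t)),
   ((M4.one.uni s.K).addL (optR t)).uni (s.R.addP (opt2 t)),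
   s.KF.uni (s.RF.addL (optL t)),
   (s.KF.addL (optR t)).uni (s.RF.addP (opt2 t))⟩

/-- the minimal valid types with given class of the left edge -/
def nxt : Bool → Cls → List Ty
  | false, .g => [
      ⟨.mm, .g, .a, .l, .n⟩, ⟨.mm, .g, .b, .n, .l⟩, ⟨.mm, .g, .o, .n, .n⟩, ⟨.mc, .g, .a, .l, .r⟩, 
      ⟨.mc, .g, .b, .n, .r⟩, ⟨.mc, .g, .o, .n, .r⟩, ⟨.mf, .g, .o, .n, .l⟩, ⟨.cm, .g, .a, .r, .n⟩, 
      ⟨.cm, .g, .b, .r, .l⟩, ⟨.cm, .g, .o, .r, .n⟩, ⟨.cf, .g, .a, .r, .l⟩, ⟨.cf, .g, .b, .r, .n⟩, 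
      ⟨.cf, .g, .o, .r, .l⟩, ⟨.fm, .g, .o, .l, .n⟩, ⟨.fc, .g, .a, .n, .r⟩, ⟨.fc, .g, .b, .l, .r⟩, 
      ⟨.fc, .g, .o, .l, .r⟩]
  | false, .a => [
      ⟨.mm, .a, .g, .r, .n⟩, ⟨.mm, .a, .b, .r, .l⟩, ⟨.mm, .a, .o, .r, .n⟩, ⟨.mc, .a, .g, .r, .l⟩, 
      ⟨.mc, .a, .b, .r, .n⟩, ⟨.mc, .a, .o, .r, .n⟩, ⟨.mf, .a, .o, .r, .l⟩, ⟨.cm, .a, .g, .l, .n⟩, 
      ⟨.cm, .a, .b, .n, .l⟩, ⟨.cm, .a, .o, .n, .n⟩, ⟨.cf, .a, .g, .l, .r⟩, ⟨.cf, .a, .b, .n, .r⟩, 
      ⟨.cf, .a, .o, .n, .l⟩, ⟨.cf, .a, .o, .n, .r⟩, ⟨.fm, .a, .o, .l, .n⟩, ⟨.fc, .a, .g, .n, .l⟩, 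
      ⟨.fc, .a, .b, .l, .n⟩, ⟨.fc, .a, .o, .l, .n⟩, ⟨.ff, .a, .b, .l, .r⟩, ⟨.ff, .a, .o, .l, .r⟩]
  | false, .b => [
      ⟨.mm, .b, .g, .n, .r⟩, ⟨.mm, .b, .a, .l, .r⟩, ⟨.mm, .b, .o, .n, .r⟩, ⟨.mc, .b, .g, .n, .l⟩, 
      ⟨.mc, .b, .a, .l, .n⟩, ⟨.mc, .b, .o, .n, .n⟩, ⟨.mf, .b, .o, .n, .l⟩, ⟨.cm, .b, .g, .l, .r⟩, 
      ⟨.cm, .b, .a, .n, .r⟩, ⟨.cm, .b, .o, .n, .r⟩, ⟨.cf, .b, .g, .l, .n⟩, ⟨.cf, .b, .a, .n, .l⟩, 
      ⟨.cf, .b, .o, .n, .l⟩, ⟨.fm, .b, .o, .l, .r⟩, ⟨.fc, .b, .g, .r, .l⟩, ⟨.fc, .b, .a, .r, .n⟩, 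
      ⟨.fc, .b, .o, .l, .n⟩, ⟨.fc, .b, .o, .r, .n⟩, ⟨.ff, .b, .a, .r, .l⟩, ⟨.ff, .b, .o, .r, .l⟩]
  | false, .o => [
      ⟨.mm, .o, .g, .n, .n⟩, ⟨.mm, .o, .a, .l, .n⟩, ⟨.mm, .o, .b, .n, .l⟩, ⟨.mm, .o, .o, .n, .n⟩, 
      ⟨.mc, .o, .g, .n, .l⟩, ⟨.mc, .o, .a, .l, .n⟩, ⟨.mc, .o, .b, .n, .n⟩, ⟨.mc, .o, .o, .n, .n⟩, 
      ⟨.mf, .o, .g, .n, .r⟩, ⟨.mf, .o, .a, .l, .r⟩, ⟨.mf, .o, .b, .n, .r⟩, ⟨.mf, .o, .o, .n, .l⟩, 
      ⟨.mf, .o, .o, .n, .r⟩, ⟨.cm, .o, .g, .l, .n⟩, ⟨.cm, .o, .a, .n, .n⟩, ⟨.cm, .o, .b, .n, .l⟩, 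
      ⟨.cm, .o, .o, .n, .n⟩, ⟨.cf, .o, .g, .l, .r⟩, ⟨.cf, .o, .a, .n, .l⟩, ⟨.cf, .o, .a, .n, .r⟩, 
      ⟨.cf, .o, .b, .n, .r⟩, ⟨.cf, .o, .o, .n, .l⟩, ⟨.cf, .o, .o, .n, .r⟩, ⟨.fm, .o, .g, .r, .n⟩, 
      ⟨.fm, .o, .a, .r, .n⟩, ⟨.fm, .o, .b, .r, .l⟩, ⟨.fm, .o, .o, .l, .n⟩, ⟨.fm, .o, .o, .r, .n⟩, 
      ⟨.fc, .o, .g, .r, .l⟩, ⟨.fc, .o, .a, .r, .n⟩, ⟨.fc, .o, .b, .l, .n⟩, ⟨.fc, .o, .b, .r, .n⟩, 
      ⟨.fc, .o, .o, .l, .n⟩, ⟨.fc, .o, .o, .r, .n⟩, ⟨.ff, .o, .a, .r, .l⟩, ⟨.ff, .o, .b, .l, .r⟩, 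
      ⟨.ff, .o, .o, .l, .r⟩, ⟨.ff, .o, .o, .r, .l⟩]
  | true, .g => [
      ⟨.mc, .g, .a, .l, .r⟩, ⟨.mc, .g, .o, .n, .r⟩, ⟨.mf, .g, .a, .l, .n⟩, ⟨.mf, .g, .o, .n, .l⟩, 
      ⟨.cm, .g, .a, .r, .l⟩, ⟨.cm, .g, .o, .r, .n⟩, ⟨.cf, .g, .a, .r, .n⟩, ⟨.cf, .g, .o, .r, .l⟩, 
      ⟨.fm, .g, .a, .n, .l⟩, ⟨.fm, .g, .o, .l, .n⟩, ⟨.fc, .g, .a, .n, .r⟩, ⟨.fc, .g, .o, .l, .r⟩, 
      ⟨.mx, .g, .a, .n, .n⟩, ⟨.mx, .g, .o, .n, .n⟩]
  | true, .a => [
      ⟨.mc, .a, .g, .r, .l⟩, ⟨.mc, .a, .o, .r, .n⟩, ⟨.mf, .a, .g, .r, .n⟩, ⟨.mf, .a, .o, .r, .l⟩, 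
      ⟨.cm, .a, .g, .l, .r⟩, ⟨.cm, .a, .o, .n, .r⟩, ⟨.cf, .a, .g, .l, .n⟩, ⟨.cf, .a, .o, .n, .l⟩, 
      ⟨.fm, .a, .g, .n, .r⟩, ⟨.fm, .a, .o, .l, .r⟩, ⟨.fc, .a, .g, .n, .l⟩, ⟨.fc, .a, .o, .l, .n⟩, 
      ⟨.mx, .a, .g, .n, .n⟩, ⟨.mx, .a, .o, .n, .n⟩]
  | true, .b => []
  | true, .o => [
      ⟨.mc, .o, .g, .n, .l⟩, ⟨.mc, .o, .a, .l, .n⟩, ⟨.mc, .o, .o, .n, .n⟩, ⟨.mf, .o, .g, .n, .r⟩, 
      ⟨.mf, .o, .a, .l, .r⟩, ⟨.mf, .o, .o, .n, .l⟩, ⟨.mf, .o, .o, .n, .r⟩, ⟨.cm, .o, .g, .l, .n⟩, 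
      ⟨.cm, .o, .a, .n, .l⟩, ⟨.cm, .o, .o, .n, .n⟩, ⟨.cf, .o, .g, .l, .r⟩, ⟨.cf, .o, .a, .n, .r⟩, 
      ⟨.cf, .o, .o, .n, .l⟩, ⟨.cf, .o, .o, .n, .r⟩, ⟨.fm, .o, .g, .r, .n⟩, ⟨.fm, .o, .a, .r, .l⟩, 
      ⟨.fm, .o, .o, .l, .n⟩, ⟨.fm, .o, .o, .r, .n⟩, ⟨.fc, .o, .g, .r, .l⟩, ⟨.fc, .o, .a, .r, .n⟩, 
      ⟨.fc, .o, .o, .l, .n⟩, ⟨.fc, .o, .o, .r, .n⟩, ⟨.ff, .o, .o, .l, .r⟩, ⟨.ff, .o, .o, .r, .l⟩, 
      ⟨.mx, .o, .g, .n, .n⟩, ⟨.mx, .o, .a, .n, .n⟩, ⟨.mx, .o, .o, .n, .n⟩]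

/-- extension step: every continuation is either solved or is checked further; `len` is the number
of vertices so far -/
def chk (same : Bool) : ℕ → ℕ → Ty → Ty → St → Bool
  | 0, _, _, _, _ => false
  | fuel + 1, len, t0, last, s =>
    (nxt same last.R).all fun t => !(nst same last.k t.k t.L) ||
      (s.R.zinL (optL t) ||
        ((Nat.blt len 2 || !(coup same t t0) || (s.step t).RF.zin) &&
          chk same fuel (len + 1) t0 t (s.step t)))

end H59.BE
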