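import Pool.Agent.H59.BE.EChain

/-!
# Engine, part 4: joining all tokens in pairs
-/

set_option autoImplicit false

namespace H59.BE

open SimpleGraph Finset

variable {V ι : Type*} [Fintype V] [DecidableEq V]

/-- the set of tokens -/
noncomputable def Conf.toks (C : Conf V ι) : Finset (V × Bool) := univ.filter fun x => C.σ x = x

theorem Conf.mem_toks {C : Conf V ι} {x : V × Bool} : x ∈ C.toks ↔ C.σ x = x := by
  simp [Conf.toks]

theorem join_all {l : V → V → ι} {good : V × ι → V × ι → Prop}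
    (hsymm : ∀ s t, good s t → good t s) {big : (V × ι → V × ι → Prop) → Prop}
    {C₀ : Conf V ι} (h₀ : C₀.Valid l) {Wd : V × Bool → Prop} (hWd : ∀ p, Wd p → WdOk C₀ p)
    {m K : ℕ}
    (hp0 : ∀ s t Lt, big (fun y y' => JG l good s Set.univ y ∧ JG l good t Lt y') →
      Pick C₀ Wd m (fun y y' => JG l good s Set.univ y ∧ JG l good t Lt y'))
    (hp1 : ∀ s Ls t Lt k, k ≤ K → big (fun y y' => JG l good s Ls y ∧ GG l good big t Lt k y') →
      Pick C₀ Wd m (fun y y' => JG l good s Ls y ∧ GG l good big t Lt k y'))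
    {φ : V × Bool → V × Bool} (hφ1 : ∀ a, C₀.σ a = a → C₀.σ (φ a) = φ a)
    (hφ2 : ∀ a, C₀.σ a = a → φ a ≠ a) (hφ3 : ∀ a, C₀.σ a = a → φ (φ a) = a)
    (hφ4 : ∀ a, C₀.σ a = a → Joinable l good big K (C₀.st a) {C₀.lab a} (C₀.st (φ a))
      {C₀.lab (φ a)})
    (N : ℕ) : ∀ (C : Conf V ι) (T : Finset V), Sit l good C₀ C T ∅ → C.toks.card = N →
      (∀ a, C.σ a = a → C₀.σ a = a) → (∀ a, C.σ a = a → C.σ (φ a) = φ a) →
      T.card + (K + 3) * N ≤ m →
      ∃ C' T', Sit l good C₀ C' T' ∅ ∧ T'.card ≤ T.card + (K + 3) * N ∧ ∀ a, C'.σ a ≠ a := by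
  induction N using Nat.strong_induction_on with
  | _ N ih =>
    intro C T h hN htok hcl hm
    by_cases hne : C.toks = ∅
    · refine ⟨C, T, h, by omega, fun a ha => ?_⟩
      have : a ∈ C.toks := Conf.mem_toks.mpr ha
      rw [hne] at this
      exact absurd this (Finset.notMem_empty a)
    obtain ⟨a, ha⟩ := Finset.nonempty_iff_ne_empty.mpr hne
    have ha' := Conf.mem_toks.mp ha
    have ha₀ := htok a ha'
    have ht' := hcl a ha'
    have ht := Conf.mem_toks.mpr ht'
    have hat := hφ2 a ha₀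
    have hsub : C.toks.card = ((C.toks.erase a).erase (φ a)).card + 2 := by
      have e1 : φ a ∈ C.toks.erase a := Finset.mem_erase.mpr ⟨hat, ht⟩
      have e2 := Finset.card_erase_add_one e1
      have e3 := Finset.card_erase_add_one ha
      omega
    have hN2 : 2 ≤ N := by omega
    have hKN : (K + 3) * N = (K + 3) * (N - 2) + 2 * K + 6 := by
      obtain ⟨M, rfl⟩ : ∃ M, N = M + 2 := ⟨N - 2, by omega⟩
      simp only [Nat.add_sub_cancel]
      ring
    obtain ⟨C1, T1, h1, h2, h3⟩ := join hsymm h₀ hWd ha₀ (hφ1 a ha₀) hat.symm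
      (fun s => hp0 s _ _) (fun s Ls k hk => hp1 s Ls _ _ k hk) (hφ4 a ha₀) h ha' ht' (by omega)
    have htoks : C1.toks = (C.toks.erase a).erase (φ a) := by
      ext x
      rw [Conf.mem_toks, h3, Finset.mem_erase, Finset.mem_erase, Conf.mem_toks]
      tauto
    obtain ⟨C2, T2, h4, h5, h6⟩ := ih (N - 2) (by omega) C1 T1 h1 (by rw [htoks]; omega)
      (fun x hx => htok x ((h3 x).mp hx).1)
      (fun x hx => by
        obtain ⟨e1, e2, e3⟩ := (h3 x).mp hx
        have e4 := htok x e1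
        refine (h3 (φ x)).mpr ⟨hcl x e1, ?_, ?_⟩
        · intro e5
          apply e3
          rw [← e5, hφ3 x e4]
        · intro e5
          apply e2
          rw [← hφ3 x e4, e5, hφ3 a ha₀])
      (by omega)
    exact ⟨C2, T2, h4, by omega, h6⟩

end H59.BE
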