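import Pool.Agent.H59.BE.ESit

/-!
# Engine, part 3: joining two tokens by a chain of exchanges
-/

set_option autoImplicit false

namespace H59.BE

open SimpleGraph

variable {V ι : Type*}

/-- the token `(s, Ls)` can be joined to the state `y` by a good edge -/
def JG (l : V → V → ι) (good : V × ι → V × ι → Prop) (s : V × ι) (Ls : Set ι) (y : V × ι) : Prop :=
  J l s y ∧ l s.1 y.1 ∈ Ls ∧ good s y

/-- the states that can be led to the token `(t, Lt)` with at most `k + 1` exchanges -/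
def GG (l : V → V → ι) (good : V × ι → V × ι → Prop) (big : (V × ι → V × ι → Prop) → Prop)
    (t : V × ι) (Lt : Set ι) : ℕ → V × ι → Prop
  | 0 => fun s => big fun y y' => JG l good s Set.univ y ∧ JG l good t Lt y'
  | k + 1 => fun s => GG l good big t Lt k s ∨
      big fun y y' => JG l good s Set.univ y ∧ GG l good big t Lt k y'

/-- the tokens `(s, Ls)` and `(t, Lt)` can be joined with at most `K + 2` exchanges -/
def Joinable (l : V → V → ι) (good : V × ι → V × ι → Prop) (big : (V × ι → V × ι → Prop) → Prop)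
    (K : ℕ) (s : V × ι) (Ls : Set ι) (t : V × ι) (Lt : Set ι) : Prop :=
  ∃ k ≤ K, big fun y y' => JG l good s Ls y ∧ GG l good big t Lt k y'

/-- windows with property `A` avoiding any `m` vertices -/
def Pick (C₀ : Conf V ι) (Wd : V × Bool → Prop) (m : ℕ) (A : V × ι → V × ι → Prop) : Prop :=
  ∀ T : Finset V, T.card ≤ m → ∃ p, Wd p ∧ p.1 ∉ T ∧ (C₀.σ p).1 ∉ T ∧ A (C₀.st p) (C₀.st (C₀.σ p))

/-- a window slot -/
def WdOk (C₀ : Conf V ι) (p : V × Bool) : Prop :=
  C₀.σ p ≠ p ∧ C₀.σ (flip p) ≠ flip p ∧ C₀.σ (flip (C₀.σ p)) ≠ flip (C₀.σ p)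

variable [DecidableEq V]

theorem Sit.step {l : V → V → ι} {good : V × ι → V × ι → Prop}
    (hsymm : ∀ s t, good s t → good t s) {C₀ C : Conf V ι} {T : Finset V} {F : Set (V × Bool)}
    (h₀ : C₀.Valid l) (h : Sit l good C₀ C T F) {b p : V × Bool}
    (hb : F = {b} ∨ (F = ∅ ∧ C₀.σ b = b ∧ C.σ b = b ∧ l b.1 p.1 = C.lab b))
    (hW : WdOk C₀ p) (hpT : p.1 ∉ insert b.1 T) (hqT : (C₀.σ p).1 ∉ insert b.1 T)
    (hJ : J l (C.st b) (C₀.st p)) (hg : good (C.st b) (C₀.st p)) :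
    ∃ C', Sit l good C₀ C' (insert b.1 (insert p.1 T)) {C₀.σ p} ∧
      ∀ x, C'.σ x = x ↔ ((C.σ x = x ∧ x ≠ b) ∨ x = C₀.σ p) := by
  rw [Finset.mem_insert, not_or] at hpT hqT
  obtain ⟨hW1, hW2, hW3⟩ := hW
  have hFb : ∀ x ∈ F, x = b := by
    intro x hx
    rcases hb with hb | hb
    · rw [hb] at hx
      exact hx
    · rw [hb.1] at hx
      exact absurd hx (Set.notMem_empty x)
  obtain ⟨hsp, h1⟩ := h.cut h₀ hW1 hW2 hW3 hpT.2 hqT.2 fun x hx => by
    rw [hFb x hx]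
    exact ⟨fun h2 => hpT.1 h2.symm, fun h2 => hqT.1 h2.symm⟩
  have hpb : p ≠ b := fun h2 => hpT.1 (by rw [h2])
  have hqb : C₀.σ p ≠ b := fun h2 => hqT.1 (by rw [h2])
  have hst : C.st p = C₀.st p := h.st_out hpT.2
  have htb : C.σ b = b := by
    rcases hb with hb | hb
    · exact (h.fresh b (by rw [hb]; rfl)).2.1
    · exact hb.2.2.1
  have htb' : (C.cut p).σ b = b := by
    rw [Conf.cut_sig_of_ne hpb.symm (by rw [hsp]; exact hqb.symm), htb]
  have h2 := h1.link hsymm (a := b) (b := p) (by rw [Conf.cut_st, Conf.cut_st, hst]; exact hJ)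
    (by rw [Conf.cut_st, Conf.cut_st, hst]; exact hg)
    (by
      rcases hb with hb | hb
      · exact Or.inl (Or.inl (by rw [hb]; rfl))
      · exact Or.inr ⟨hb.2.1, htb', hb.2.2.2⟩)
    (Or.inl (Or.inr (Or.inl rfl)))
  have hF : (F ∪ {p, C₀.σ p}) \ {b, p} = {C₀.σ p} := by
    ext x
    simp only [Set.mem_sdiff, Set.mem_union, Set.mem_insert_iff, Set.mem_singleton_iff, not_or]
    constructor
    · rintro ⟨h3 | h3 | h3, h4, h5⟩
      · exact absurd (hFb x h3) h4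
      · exact absurd h3 h5
      · exact h3
    · rintro rfl
      exact ⟨Or.inr (Or.inr rfl), hqb, hW1⟩
  rw [hF] at h2
  refine ⟨_, h2, fun x => ?_⟩
  by_cases hxb : x = b
  · subst hxb
    rw [Conf.link_sig_left]
    constructor
    · intro h3
      exact absurd h3 hpb
    · rintro (⟨_, h3⟩ | h3)
      · exact absurd rfl h3
      · exact absurd h3.symm hqb
  by_cases hxp : x = p
  · subst hxp
    rw [Conf.link_sig_right hpb.symm]
    constructor
    · intro h3
      exact absurd h3 hpb.symm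
    · rintro (⟨h3, _⟩ | h3)
      · rw [hsp] at h3
        exact absurd h3 hW1
      · exact absurd h3.symm hW1
  rw [Conf.link_sig_of_ne hxb hxp]
  by_cases hxq : x = C₀.σ p
  · constructor
    · intro _
      exact Or.inr hxq
    · intro _
      have h3 := Conf.cut_sig_right C p
      rw [hsp] at h3
      rw [hxq]
      exact h3
  · rw [Conf.cut_sig_of_ne hxp (by rw [hsp]; exact hxq)]
    constructor
    · intro h3
      exact Or.inl ⟨h3, hxb⟩
    · rintro (⟨h3, _⟩ | h3)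
      · exact h3
      · exact absurd h3 hxq

theorem Sit.close {l : V → V → ι} {good : V × ι → V × ι → Prop}
    (hsymm : ∀ s t, good s t → good t s) {C₀ C : Conf V ι} {T : Finset V} {q t : V × Bool}
    (h : Sit l good C₀ C T {q}) (ht₀ : C₀.σ t = t) (ht : C.σ t = t)
    (hJ : JG l good (C₀.st t) {C₀.lab t} (C₀.st q)) :
    ∃ C', Sit l good C₀ C' (insert t.1 (insert q.1 T)) ∅ ∧
      ∀ x, C'.σ x = x ↔ (C.σ x = x ∧ x ≠ q ∧ x ≠ t) := by
  obtain ⟨hJ1, hJ2, hJ3⟩ := hJ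
  have hqf := h.fresh q rfl
  have hst : C.st t = C₀.st t := h.st_keep ht₀
  have hsq : C.st q = C₀.st q := h.st_out hqf.1
  have hlab : l t.1 q.1 = C.lab t := by
    rw [(h.keep t ht₀).1]
    exact hJ2
  have htq : t ≠ q := by
    rintro rfl
    exact hqf.2.2.1 ht₀
  have h2 := h.link hsymm (a := t) (b := q) (by rw [hst, hsq]; exact hJ1)
    (by rw [hst, hsq]; exact hJ3) (Or.inr ⟨ht₀, ht, hlab⟩) (Or.inl rfl)
  have hF : ({q} : Set (V × Bool)) \ {t, q} = ∅ := by
    ext x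
    simp only [Set.mem_sdiff, Set.mem_singleton_iff, Set.mem_insert_iff, not_or,
      Set.mem_empty_iff_false, iff_false]
    rintro ⟨rfl, h3, h4⟩
    exact h4 rfl
  rw [hF] at h2
  refine ⟨_, h2, fun x => ?_⟩
  by_cases hxt : x = t
  · subst hxt
    rw [Conf.link_sig_left]
    constructor
    · intro h3
      exact absurd h3.symm htq
    · rintro ⟨_, _, h3⟩
      exact absurd rfl h3
  by_cases hxq : x = q
  · subst hxq
    rw [Conf.link_sig_right htq]
    constructor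
    · intro h3
      exact absurd h3 htq
    · rintro ⟨_, h3, _⟩
      exact absurd rfl h3
  rw [Conf.link_sig_of_ne hxt hxq]
  exact ⟨fun h3 => ⟨h3, hxq, hxt⟩, fun h3 => h3.1⟩

/-- finishing a join from an intermediate token -/
theorem chain {l : V → V → ι} {good : V × ι → V × ι → Prop}
    (hsymm : ∀ s t, good s t → good t s) {big : (V × ι → V × ι → Prop) → Prop}
    {C₀ : Conf V ι} (h₀ : C₀.Valid l) {Wd : V × Bool → Prop} (hWd : ∀ p, Wd p → WdOk C₀ p)
    {m K : ℕ} {t : V × Bool} (ht₀ : C₀.σ t = t)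
    (hp0 : ∀ s, big (fun y y' => JG l good s Set.univ y ∧ JG l good (C₀.st t) {C₀.lab t} y') →
      Pick C₀ Wd m (fun y y' => JG l good s Set.univ y ∧ JG l good (C₀.st t) {C₀.lab t} y'))
    (hp1 : ∀ s Ls k, k ≤ K →
      big (fun y y' => JG l good s Ls y ∧ GG l good big (C₀.st t) {C₀.lab t} k y') →
      Pick C₀ Wd m (fun y y' => JG l good s Ls y ∧ GG l good big (C₀.st t) {C₀.lab t} k y'))
    (k : ℕ) : k ≤ K → ∀ (C : Conf V ι) (T : Finset V) (b : V × Bool), Sit l good C₀ C T {b} →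
      C.σ t = t → GG l good big (C₀.st t) {C₀.lab t} k (C₀.st b) → T.card + 2 * k + 1 ≤ m →
      ∃ C' T', Sit l good C₀ C' T' ∅ ∧ T'.card ≤ T.card + 2 * k + 4 ∧
        ∀ x, C'.σ x = x ↔ (C.σ x = x ∧ x ≠ b ∧ x ≠ t) := by
  induction k with
  | zero =>
    intro _ C T b h ht hG hm
    have hbf := h.fresh b rfl
    obtain ⟨p, hp, hp1, hp2, ⟨hA1, hA2, hA3⟩, hA4⟩ := hp0 _ hG (insert b.1 T)
      (by have := Finset.card_insert_le b.1 T; omega)
    have hsb : C.st b = C₀.st b := h.st_out hbf.1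
    obtain ⟨C1, h1, h2⟩ := h.step hsymm h₀ (b := b) (p := p) (Or.inl rfl) (hWd p hp) hp1 hp2
      (by rw [hsb]; exact hA1) (by rw [hsb]; exact hA3)
    have hbt : b ≠ t := by
      rintro rfl
      exact hbf.2.2.1 ht₀
    have ht1 : C1.σ t = t := (h2 t).mpr (Or.inl ⟨ht, hbt.symm⟩)
    obtain ⟨C2, h3, h4⟩ := h1.close hsymm ht₀ ht1 hA4
    refine ⟨C2, _, h3, ?_, fun x => ?_⟩
    · have e1 := Finset.card_insert_le t.1 (insert (C₀.σ p).1 (insert b.1 (insert p.1 T)))
      have e2 := Finset.card_insert_le (C₀.σ p).1 (insert b.1 (insert p.1 T))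
      have e3 := Finset.card_insert_le b.1 (insert p.1 T)
      have e4 := Finset.card_insert_le p.1 T
      omega
    · rw [h4, h2]
      constructor
      · rintro ⟨h5 | h5, h6, h7⟩
        · exact ⟨h5.1, h5.2, h7⟩
        · exact absurd h5 h6
      · rintro ⟨h5, h6, h7⟩
        refine ⟨Or.inl ⟨h5, h6⟩, ?_, h7⟩
        rintro rfl
        have hbp : p ≠ b := fun e => hp1 (by rw [e]; exact Finset.mem_insert_self _ _)
        have hsp : C.σ p = C₀.σ p := h.sigout p (fun e => hp1 (Finset.mem_insert_of_mem e)) hbp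
        rw [← hsp, h.valid.inv, hsp] at h5
        exact (hWd p hp).1 h5.symm
  | succ k ih =>
    intro hk C T b h ht hG hm
    rcases hG with hG | hG
    · obtain ⟨C', T', h1, h2, h3⟩ := ih (by omega) C T b h ht hG (by omega)
      exact ⟨C', T', h1, by omega, h3⟩
    have hbf := h.fresh b rfl
    obtain ⟨p, hp, hp1, hp2, ⟨hA1, hA2, hA3⟩, hA4⟩ := hp1 _ _ k (by omega) hG (insert b.1 T)
      (by have := Finset.card_insert_le b.1 T; omega)
    have hsb : C.st b = C₀.st b := h.st_out hbf.1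
    obtain ⟨C1, h1, h2⟩ := h.step hsymm h₀ (b := b) (p := p) (Or.inl rfl) (hWd p hp) hp1 hp2
      (by rw [hsb]; exact hA1) (by rw [hsb]; exact hA3)
    have hbt : b ≠ t := by
      rintro rfl
      exact hbf.2.2.1 ht₀
    have ht1 : C1.σ t = t := (h2 t).mpr (Or.inl ⟨ht, hbt.symm⟩)
    have e3 := Finset.card_insert_le b.1 (insert p.1 T)
    have e4 := Finset.card_insert_le p.1 T
    obtain ⟨C2, T2, h3, h4, h5⟩ := ih (by omega) C1 _ _ h1 ht1 hA4 (by omega)
    refine ⟨C2, T2, h3, by omega, fun x => ?_⟩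
    rw [h5, h2]
    constructor
    · rintro ⟨h6 | h6, h7, h8⟩
      · exact ⟨h6.1, h6.2, h8⟩
      · exact absurd h6 h7
    · rintro ⟨h6, h7, h8⟩
      refine ⟨Or.inl ⟨h6, h7⟩, ?_, h8⟩
      rintro rfl
      have hbp : p ≠ b := fun e => hp1 (by rw [e]; exact Finset.mem_insert_self _ _)
      have hsp : C.σ p = C₀.σ p := h.sigout p (fun e => hp1 (Finset.mem_insert_of_mem e)) hbp
      rw [← hsp, h.valid.inv, hsp] at h6
      exact (hWd p hp).1 h6.symm

/-- one join of two tokens of `C₀` -/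
theorem join {l : V → V → ι} {good : V × ι → V × ι → Prop}
    (hsymm : ∀ s t, good s t → good t s) {big : (V × ι → V × ι → Prop) → Prop}
    {C₀ : Conf V ι} (h₀ : C₀.Valid l) {Wd : V × Bool → Prop} (hWd : ∀ p, Wd p → WdOk C₀ p)
    {m K : ℕ} {a t : V × Bool} (ha₀ : C₀.σ a = a) (ht₀ : C₀.σ t = t) (hat : a ≠ t)
    (hp0 : ∀ s, big (fun y y' => JG l good s Set.univ y ∧ JG l good (C₀.st t) {C₀.lab t} y') →
      Pick C₀ Wd m (fun y y' => JG l good s Set.univ y ∧ JG l good (C₀.st t) {C₀.lab t} y'))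
    (hp1 : ∀ s Ls k, k ≤ K →
      big (fun y y' => JG l good s Ls y ∧ GG l good big (C₀.st t) {C₀.lab t} k y') →
      Pick C₀ Wd m (fun y y' => JG l good s Ls y ∧ GG l good big (C₀.st t) {C₀.lab t} k y'))
    (hjoin : Joinable l good big K (C₀.st a) {C₀.lab a} (C₀.st t) {C₀.lab t})
    {C : Conf V ι} {T : Finset V} (h : Sit l good C₀ C T ∅) (ha : C.σ a = a) (ht : C.σ t = t)
    (hm : T.card + 2 * K + 3 ≤ m) :
    ∃ C' T', Sit l good C₀ C' T' ∅ ∧ T'.card ≤ T.card + 2 * K + 6 ∧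
      ∀ x, C'.σ x = x ↔ (C.σ x = x ∧ x ≠ a ∧ x ≠ t) := by
  obtain ⟨k, hk, hbig⟩ := hjoin
  obtain ⟨p, hp, hpT, hqT, ⟨hA1, hA2, hA3⟩, hA4⟩ := hp1 _ _ k hk hbig (insert a.1 T)
    (by have := Finset.card_insert_le a.1 T; omega)
  have hsa : C.st a = C₀.st a := h.st_keep ha₀
  have hlab : l a.1 p.1 = C.lab a := by
    rw [(h.keep a ha₀).1]
    exact hA2
  obtain ⟨C1, h1, h2⟩ := h.step hsymm h₀ (b := a) (p := p) (Or.inr ⟨rfl, ha₀, ha, hlab⟩)
    (hWd p hp) hpT hqT (by rw [hsa]; exact hA1) (by rw [hsa]; exact hA3)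
  have ht1 : C1.σ t = t := (h2 t).mpr (Or.inl ⟨ht, hat.symm⟩)
  have e3 := Finset.card_insert_le a.1 (insert p.1 T)
  have e4 := Finset.card_insert_le p.1 T
  obtain ⟨C2, T2, h3, h4, h5⟩ := chain hsymm h₀ hWd ht₀ hp0 hp1 k hk C1 _ _ h1 ht1 hA4 (by omega)
  refine ⟨C2, T2, h3, by omega, fun x => ?_⟩
  rw [h5, h2]
  constructor
  · rintro ⟨h6 | h6, h7, h8⟩
    · exact ⟨h6.1, h6.2, h8⟩
    · exact absurd h6 h7
  · rintro ⟨h6, h7, h8⟩
    refine ⟨Or.inl ⟨h6, h7⟩, ?_, h8⟩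
    rintro rfl
    have hsp : C.σ p = C₀.σ p := h.sigout p (fun e => hpT (Finset.mem_insert_of_mem e))
      (Set.notMem_empty p)
    rw [← hsp, h.valid.inv, hsp] at h6
    exact (hWd p hp).1 h6.symm

end H59.BE
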