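import Pool.Agent.H59.BE.Ham

/-!
# Engine, part 1: configurations

Slots `V × Bool`; a configuration is an involution `σ` on the slots (its fixed points are the
tokens) together with a label for every slot.
-/

set_option autoImplicit false

namespace H59.BE

open SimpleGraph

variable {V ι : Type*}

/-- the other slot at the same vertex -/
def flip (a : V × Bool) : V × Bool := (a.1, !a.2)

@[simp] theorem flip_flip (a : V × Bool) : flip (flip a) = a := by simp [flip]

@[simp] theorem flip_fst (a : V × Bool) : (flip a).1 = a.1 := rfl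

theorem flip_ne (a : V × Bool) : flip a ≠ a := by
  intro h
  have := congrArg Prod.snd h
  simp [flip] at this

theorem eq_or_flip {a b : V × Bool} (h : a.1 = b.1) : a = b ∨ a = flip b := by
  obtain ⟨v, i⟩ := a
  obtain ⟨w, j⟩ := b
  simp only at h
  subst h
  cases i <;> cases j <;> simp [flip]

theorem flip_inj {a b : V × Bool} : flip a = flip b ↔ a = b := by
  constructor
  · intro h
    have := congrArg flip h
    simpa using this
  · rintro rfl
    rfl

theorem flip_eq_iff {a b : V × Bool} : flip a = b ↔ a = flip b := by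
  rw [← flip_inj, flip_flip]

/-- a configuration -/
structure Conf (V ι : Type*) where
  σ : V × Bool → V × Bool
  lab : V × Bool → ι

/-- the joining condition for two states -/
def J (l : V → V → ι) (s t : V × ι) : Prop := s.1 ≠ t.1 ∧ l s.1 t.1 ≠ s.2 ∧ l t.1 s.1 ≠ t.2

theorem J.symm {l : V → V → ι} {s t : V × ι} (h : J l s t) : J l t s := ⟨h.1.symm, h.2.2, h.2.1⟩

namespace Conf

/-- the state of a slot: vertex and kept label -/
def st (C : Conf V ι) (a : V × Bool) : V × ι := (a.1, C.lab (flip a))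

/-- valid configurations -/
structure Valid (l : V → V → ι) (C : Conf V ι) : Prop where
  inv : ∀ a, C.σ (C.σ a) = a
  lab_ne : ∀ a, C.lab a ≠ C.lab (flip a)
  ne : ∀ a, C.σ a ≠ a → (C.σ a).1 ≠ a.1
  lab_eq : ∀ a, C.σ a ≠ a → C.lab a = l a.1 (C.σ a).1

/-- the underlying graph -/
def graph (C : Conf V ι) : SimpleGraph V :=
  SimpleGraph.fromRel fun v w => ∃ i, (C.σ (v, i)).1 = w

theorem Valid.adj {l : V → V → ι} {C : Conf V ι} (h : C.Valid l) {v w : V} :
    C.graph.Adj v w ↔ v ≠ w ∧ ∃ i, (C.σ (v, i)).1 = w := by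
  unfold graph
  rw [SimpleGraph.fromRel_adj]
  constructor
  · rintro ⟨hne, h1 | ⟨i, hi⟩⟩
    · exact ⟨hne, h1⟩
    · refine ⟨hne, (C.σ (w, i)).2, ?_⟩
      have h2 : (v, (C.σ (w, i)).2) = C.σ (w, i) := by
        rw [← hi]
      rw [h2, h.inv]
  · rintro ⟨hne, h1⟩
    exact ⟨hne, Or.inl h1⟩

theorem Valid.adj_slot {l : V → V → ι} {C : Conf V ι} (h : C.Valid l) (a : V × Bool)
    (ha : C.σ a ≠ a) : C.graph.Adj a.1 (C.σ a).1 := by
  rw [h.adj]
  exact ⟨(h.ne a ha).symm, a.2, rfl⟩

theorem Valid.sig_ne {l : V → V → ι} {C : Conf V ι} (h : C.Valid l) {a : V × Bool}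
    (ha : C.σ a ≠ a) : C.σ (C.σ a) ≠ C.σ a := by
  rw [h.inv]
  exact ha.symm

theorem Valid.inj {l : V → V → ι} {C : Conf V ι} (h : C.Valid l) {a b : V × Bool}
    (hab : C.σ a = C.σ b) : a = b := by
  rw [← h.inv a, hab, h.inv]

/-- no tokens: a compatible 2-factor -/
theorem Valid.tf {l : V → V → ι} {C : Conf V ι} (h : C.Valid l) (ht : ∀ a, C.σ a ≠ a) :
    TF l C.graph := by
  intro v
  have h1 := h.lab_eq _ (ht (v, false))
  have h2 := h.lab_eq _ (ht (v, true))
  have h3 := h.lab_ne (v, false)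
  have h4 : l v (C.σ (v, false)).1 ≠ l v (C.σ (v, true)).1 := by
    intro h5
    exact h3 (h1.trans (h5.trans h2.symm))
  refine ⟨(C.σ (v, false)).1, (C.σ (v, true)).1, fun h5 => h4 (by rw [h5]), h4, fun w => ?_⟩
  rw [h.adj]
  constructor
  · rintro ⟨_, i, hi⟩
    cases i
    · exact Or.inl hi.symm
    · exact Or.inr hi.symm
  · rintro (rfl | rfl)
    · exact ⟨(h.ne (v, false) (ht _)).symm, false, rfl⟩
    · exact ⟨(h.ne (v, true) (ht _)).symm, true, rfl⟩

variable [DecidableEq V]

/-- remove the edge at the slot `p` -/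
def cut (C : Conf V ι) (p : V × Bool) : Conf V ι where
  σ := fun x => if x = p ∨ x = C.σ p then x else C.σ x
  lab := C.lab

/-- join the tokens `a`, `b` -/
def link (l : V → V → ι) (C : Conf V ι) (a b : V × Bool) : Conf V ι where
  σ := fun x => if x = a then b else if x = b then a else C.σ x
  lab := fun x => if x = a then l a.1 b.1 else if x = b then l b.1 a.1 else C.lab x

theorem cut_sig_of_ne {C : Conf V ι} {p x : V × Bool} (h1 : x ≠ p) (h2 : x ≠ C.σ p) :
    (C.cut p).σ x = C.σ x := by
  simp [cut, h1, h2]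

theorem cut_sig_left (C : Conf V ι) (p : V × Bool) : (C.cut p).σ p = p := by
  simp [cut]

theorem cut_sig_right (C : Conf V ι) (p : V × Bool) : (C.cut p).σ (C.σ p) = C.σ p := by
  simp [cut]

@[simp] theorem cut_lab (C : Conf V ι) (p x : V × Bool) : (C.cut p).lab x = C.lab x := rfl

@[simp] theorem cut_st (C : Conf V ι) (p x : V × Bool) : (C.cut p).st x = C.st x := rfl

theorem link_sig_left (l : V → V → ι) (C : Conf V ι) (a b : V × Bool) :
    (C.link l a b).σ a = b := by
  simp [link]

theorem link_sig_right {l : V → V → ι} {C : Conf V ι} {a b : V × Bool} (h : a ≠ b) :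
    (C.link l a b).σ b = a := by
  simp [link, h.symm]

theorem link_sig_of_ne {l : V → V → ι} {C : Conf V ι} {a b x : V × Bool} (h1 : x ≠ a)
    (h2 : x ≠ b) : (C.link l a b).σ x = C.σ x := by
  simp [link, h1, h2]

theorem link_lab_left (l : V → V → ι) (C : Conf V ι) (a b : V × Bool) :
    (C.link l a b).lab a = l a.1 b.1 := by
  simp [link]

theorem link_lab_right {l : V → V → ι} {C : Conf V ι} {a b : V × Bool} (h : a ≠ b) :
    (C.link l a b).lab b = l b.1 a.1 := by
  simp [link, h.symm]

theorem link_lab_of_ne {l : V → V → ι} {C : Conf V ι} {a b x : V × Bool} (h1 : x ≠ a)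
    (h2 : x ≠ b) : (C.link l a b).lab x = C.lab x := by
  simp [link, h1, h2]

theorem Valid.cut {l : V → V → ι} {C : Conf V ι} (h : C.Valid l) (p : V × Bool) :
    (C.cut p).Valid l := by
  have hs : ∀ x, (C.cut p).σ x ≠ x → x ≠ p ∧ x ≠ C.σ p ∧ (C.cut p).σ x = C.σ x := by
    intro x hx
    have h1 : x ≠ p := by
      rintro rfl
      exact hx (cut_sig_left C x)
    have h2 : x ≠ C.σ p := by
      rintro rfl
      exact hx (cut_sig_right C p)
    exact ⟨h1, h2, cut_sig_of_ne h1 h2⟩
  refine ⟨fun x => ?_, h.lab_ne, fun x hx => ?_, fun x hx => ?_⟩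
  · by_cases h0 : (C.cut p).σ x = x
    · rw [h0, h0]
    · obtain ⟨h1, h2, h3⟩ := hs x h0
      rw [h3, cut_sig_of_ne, h.inv]
      · intro h4
        apply h2
        rw [← h4, h.inv]
      · intro h4
        exact h1 (h.inj h4)
  · obtain ⟨h1, h2, h3⟩ := hs x hx
    rw [h3] at hx ⊢
    exact h.ne x hx
  · obtain ⟨h1, h2, h3⟩ := hs x hx
    rw [h3] at hx ⊢
    exact h.lab_eq x hx

theorem Valid.link {l : V → V → ι} {C : Conf V ι} (h : C.Valid l) {a b : V × Bool}
    (ha : C.σ a = a) (hb : C.σ b = b) (hJ : J l (C.st a) (C.st b)) : (C.link l a b).Valid l := by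
  obtain ⟨hne, h1, h2⟩ := hJ
  simp only [st] at hne h1 h2
  have hab : a ≠ b := fun h3 => hne (by rw [h3])
  have hfa : flip a ≠ b := fun h3 => hne (by rw [← h3, flip_fst])
  have hfb : flip b ≠ a := fun h3 => hne (by rw [← h3, flip_fst])
  have hx : ∀ x, x ≠ a → x ≠ b → C.σ x ≠ a ∧ C.σ x ≠ b := by
    intro x hxa hxb
    constructor
    · intro h3
      apply hxa
      rw [← h.inv x, h3, ha]
    · intro h3
      apply hxb
      rw [← h.inv x, h3, hb]
  refine ⟨fun x => ?_, fun x => ?_, fun x hx' => ?_, fun x hx' => ?_⟩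
  · by_cases hxa : x = a
    · subst hxa
      rw [link_sig_left, link_sig_right hab]
    by_cases hxb : x = b
    · subst hxb
      rw [link_sig_right hab, link_sig_left]
    rw [link_sig_of_ne hxa hxb, link_sig_of_ne (hx x hxa hxb).1 (hx x hxa hxb).2, h.inv]
  · by_cases hxa : x = a
    · subst hxa
      rw [link_lab_left, link_lab_of_ne (flip_ne x) hfa]
      exact h1
    by_cases hxb : x = b
    · subst hxb
      rw [link_lab_right hab, link_lab_of_ne hfb (flip_ne x)]
      exact h2
    rw [link_lab_of_ne hxa hxb]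
    by_cases hfxa : flip x = a
    · have h3 : x = flip a := by rw [← hfxa, flip_flip]
      rw [hfxa, link_lab_left, h3]
      exact h1.symm
    by_cases hfxb : flip x = b
    · have h3 : x = flip b := by rw [← hfxb, flip_flip]
      rw [hfxb, link_lab_right hab, h3]
      exact h2.symm
    rw [link_lab_of_ne hfxa hfxb]
    exact h.lab_ne x
  · by_cases hxa : x = a
    · subst hxa
      rw [link_sig_left]
      exact hne.symm
    by_cases hxb : x = b
    · subst hxb
      rw [link_sig_right hab]
      exact hne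
    rw [link_sig_of_ne hxa hxb] at hx' ⊢
    exact h.ne x hx'
  · by_cases hxa : x = a
    · subst hxa
      rw [link_sig_left, link_lab_left]
    by_cases hxb : x = b
    · subst hxb
      rw [link_sig_right hab, link_lab_right hab]
    rw [link_sig_of_ne hxa hxb] at hx' ⊢
    rw [link_lab_of_ne hxa hxb]
    exact h.lab_eq x hx'

end Conf

end H59.BE
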