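import Pool.Agent.H59.BE.EMerge

/-!
# Engine, part 6: the combinatorial core
-/

set_option autoImplicit false

namespace H59.BE

open SimpleGraph Finset

variable {V ι : Type*} [Fintype V] [DecidableEq V]

/-- Hamilton cycle as a periodic enumeration -/
def HamCyc (l : V → V → ι) : Prop :=
  ∃ f : ℕ → V, (∀ i, f (i + Fintype.card V) = f i) ∧
    (∀ i j, i < Fintype.card V → j < Fintype.card V → f i = f j → i = j) ∧
    ∀ i, l (f (i + 1)) (f i) ≠ l (f (i + 1)) (f (i + 2))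

/-- From a configuration whose tokens can be paired, with windows enough for all the exchanges,
to a compatible Hamilton cycle. -/
theorem core [Nonempty V] {l : V → V → ι} {good : V × ι → V × ι → Prop}
    (hsymm : ∀ s t, good s t → good t s) {big : (V × ι → V × ι → Prop) → Prop}
    {C₀ : Conf V ι} (h₀ : C₀.Valid l) {Wd : V × Bool → Prop} (hWd : ∀ p, Wd p → WdOk C₀ p)
    {m K : ℕ}
    (hp0 : ∀ s t Lt, big (fun y y' => JG l good s Set.univ y ∧ JG l good t Lt y') →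
      Pick C₀ Wd m (fun y y' => JG l good s Set.univ y ∧ JG l good t Lt y'))
    (hp1 : ∀ s Ls t Lt k, k ≤ K → big (fun y y' => JG l good s Ls y ∧ GG l good big t Lt k y') →
      Pick C₀ Wd m (fun y y' => JG l good s Ls y ∧ GG l good big t Lt k y'))
    (hM : MergeHyp l good C₀ Wd m)
    (hr : ∀ v, ∃ w, C₀.graph.Reachable v w ∧ ∃ i, C₀.σ (w, i) = (w, i))
    (hφ : ∃ φ : V × Bool → V × Bool, ∀ a, C₀.σ a = a → C₀.σ (φ a) = φ a ∧ φ a ≠ a ∧
      φ (φ a) = a ∧ Joinable l good big K (C₀.st a) {C₀.lab a} (C₀.st (φ a)) {C₀.lab (φ a)})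
    (hm : 3 * ((K + 3) * C₀.toks.card) ≤ m) : HamCyc l := by
  obtain ⟨φ, hφ⟩ := hφ
  have hS : Sit l good C₀ C₀ ∅ ∅ := by
    refine ⟨h₀, fun _ _ => rfl, fun _ _ _ => rfl, fun x hx => absurd hx (Set.notMem_empty x),
      fun _ _ => ⟨rfl, rfl⟩, fun v hv => absurd hv (Finset.notMem_empty v), fun v => ?_⟩
    obtain ⟨w, h1, h2⟩ := hr v
    exact ⟨w, h1, Or.inr h2⟩
  obtain ⟨C1, T1, h1, h2, h3⟩ := join_all hsymm h₀ hWd hp0 hp1 (φ := φ) (fun a ha => (hφ a ha).1)
    (fun a ha => (hφ a ha).2.1) (fun a ha => (hφ a ha).2.2.1) (fun a ha => (hφ a ha).2.2.2)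
    C₀.toks.card C₀ ∅ hS rfl (fun _ ha => ha) (fun a ha => (hφ a ha).1)
    (by rw [Finset.card_empty]; omega)
  rw [Finset.card_empty] at h2
  have h4 := h1.toMSit h3
  obtain ⟨C2, h5, h6, h7⟩ := MSit.connect hM _ C1 T1 h4 rfl (by
    have := h4.card_comp
    omega)
  exact (h5.tf h6).hamilton h7

end H59.BE
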