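import Pool.Agent.H59.BE.EAll

/-!
# Engine, part 5: merging the cycles
-/

set_option autoImplicit false
set_option linter.unusedSectionVars false

namespace H59.BE

open SimpleGraph Finset

variable {V ι : Type*} [DecidableEq V]

/-- one 2-switch between two different cycles -/
theorem merge_one [Finite V] {l : V → V → ι} {C : Conf V ι} (h : C.Valid l) (ht : ∀ a, C.σ a ≠ a)
    {g p : V × Bool} (hsep : ¬ C.graph.Reachable g.1 p.1) (hJ1 : J l (C.st g) (C.st p))
    (hJ2 : J l (C.st (C.σ g)) (C.st (C.σ p))) :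
    ∃ C' : Conf V ι, C'.Valid l ∧ (∀ a, C'.σ a ≠ a) ∧
      (∀ x, x ≠ g → x ≠ C.σ g → x ≠ p → x ≠ C.σ p → C'.σ x = C.σ x ∧ C'.lab x = C.lab x) ∧
      (∀ a b, C.graph.Reachable a b → C'.graph.Reachable a b) ∧
      C'.graph.Reachable g.1 p.1 := by
  have hg := h.adj_slot g (ht g)
  have hp := h.adj_slot p (ht p)
  -- the four vertices are different
  have d1 : g.1 ≠ p.1 := hJ1.1
  have d2 : (C.σ g).1 ≠ (C.σ p).1 := hJ2.1
  have d3 : g.1 ≠ (C.σ p).1 := by
    intro h1
    apply hsep
    rw [h1]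
    exact hp.symm.reachable
  have d4 : (C.σ g).1 ≠ p.1 := by
    intro h1
    apply hsep
    rw [← h1]
    exact hg.reachable
  have d5 : (C.σ g).1 ≠ g.1 := h.ne g (ht g)
  have d6 : (C.σ p).1 ≠ p.1 := h.ne p (ht p)
  have n1 : g ≠ p := fun e => d1 (by rw [e])
  have n2 : C.σ g ≠ C.σ p := fun e => d2 (by rw [e])
  have n3 : g ≠ C.σ p := fun e => d3 (congrArg Prod.fst e)
  have n4 : C.σ g ≠ p := fun e => d4 (congrArg Prod.fst e)
  have n5 : C.σ g ≠ g := ht g
  have n6 : C.σ p ≠ p := ht p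
  have hff : ∀ {x y : V × Bool}, flip x = y → x.1 = y.1 := by
    rintro x y rfl
    rfl
  have f1 : flip (C.σ g) ≠ g := fun e => d5 (hff e)
  have f2 : flip (C.σ g) ≠ p := fun e => d4 (hff e)
  have f3 : flip (C.σ p) ≠ g := fun e => d3 (hff e).symm
  have f4 : flip (C.σ p) ≠ p := fun e => d6 (hff e)
  -- the four operations
  set C1 := C.cut g with hC1
  have v1 : C1.Valid l := h.cut g
  have s1 : C1.σ p = C.σ p := Conf.cut_sig_of_ne n1.symm n4.symm
  set C2 := C1.cut p with hC2
  have v2 : C2.Valid l := v1.cut p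
  have t1 : C2.σ g = g := by
    rw [hC2, Conf.cut_sig_of_ne n1 (by rw [s1]; exact n3), hC1, Conf.cut_sig_left]
  have t2 : C2.σ p = p := Conf.cut_sig_left _ _
  have t3 : C2.σ (C.σ g) = C.σ g := by
    rw [hC2, Conf.cut_sig_of_ne n4 (by rw [s1]; exact n2), hC1, Conf.cut_sig_right]
  have t4 : C2.σ (C.σ p) = C.σ p := by
    have := Conf.cut_sig_right C1 p
    rwa [s1] at this
  have o2 : ∀ x, x ≠ g → x ≠ C.σ g → x ≠ p → x ≠ C.σ p → C2.σ x = C.σ x := by
    intro x h1 h2 h3 h4
    rw [hC2, Conf.cut_sig_of_ne h3 (by rw [s1]; exact h4), hC1, Conf.cut_sig_of_ne h1 h2]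
  set C3 := C2.link l g p with hC3
  have v3 : C3.Valid l := v2.link t1 t2 (by rw [hC2, hC1]; exact hJ1)
  have t5 : C3.σ (C.σ g) = C.σ g := by
    rw [hC3, Conf.link_sig_of_ne n5 n4, t3]
  have t6 : C3.σ (C.σ p) = C.σ p := by
    rw [hC3, Conf.link_sig_of_ne n3.symm n6, t4]
  have st1 : C3.st (C.σ g) = C.st (C.σ g) := by
    unfold Conf.st
    rw [hC3, Conf.link_lab_of_ne f1 f2]
    rfl
  have st2 : C3.st (C.σ p) = C.st (C.σ p) := by
    unfold Conf.st
    rw [hC3, Conf.link_lab_of_ne f3 f4]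
    rfl
  set C4 := C3.link l (C.σ g) (C.σ p) with hC4
  have v4 : C4.Valid l := v3.link t5 t6 (by rw [st1, st2]; exact hJ2)
  have u1 : C4.σ g = p := by
    rw [hC4, Conf.link_sig_of_ne n5.symm n3, hC3, Conf.link_sig_left]
  have u2 : C4.σ p = g := by
    rw [hC4, Conf.link_sig_of_ne n4.symm n6.symm, hC3, Conf.link_sig_right n1]
  have u3 : C4.σ (C.σ g) = C.σ p := by
    rw [hC4, Conf.link_sig_left]
  have u4 : C4.σ (C.σ p) = C.σ g := by
    rw [hC4, Conf.link_sig_right n2]
  have o4 : ∀ x, x ≠ g → x ≠ C.σ g → x ≠ p → x ≠ C.σ p →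
      C4.σ x = C.σ x ∧ C4.lab x = C.lab x := by
    intro x h1 h2 h3 h4
    rw [hC4, Conf.link_sig_of_ne h2 h4, Conf.link_lab_of_ne h2 h4, hC3,
      Conf.link_sig_of_ne h1 h3, Conf.link_lab_of_ne h1 h3, o2 x h1 h2 h3 h4]
    exact ⟨rfl, rfl⟩
  have hle : BE.sw C.graph g.1 (C.σ g).1 p.1 (C.σ p).1 ≤ C4.graph := by
    intro P Q hPQ
    rw [sw_adj d1 d2] at hPQ
    rcases hPQ with ⟨h1, h2, h3⟩ | h1 | h1
    · rw [h.adj] at h1
      obtain ⟨hne, i, hi⟩ := h1
      rw [v4.adj]
      refine ⟨hne, i, ?_⟩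
      rw [(o4 (P, i) ?_ ?_ ?_ ?_).1, hi]
      · intro e
        apply h2
        rw [← hi, e, ← e]
      · intro e
        apply h2
        rw [← hi, e, h.inv, Sym2.eq_swap]
        rw [← e]
      · intro e
        apply h3
        rw [← hi, e, ← e]
      · intro e
        apply h3
        rw [← hi, e, h.inv, Sym2.eq_swap]
        rw [← e]
    · rcases Sym2.eq_iff.mp h1 with ⟨rfl, rfl⟩ | ⟨rfl, rfl⟩
      · have := v4.adj_slot g (by rw [u1]; exact n1.symm)
        rwa [u1] at this
      · have := v4.adj_slot g (by rw [u1]; exact n1.symm)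
        rw [u1] at this
        exact this.symm
    · rcases Sym2.eq_iff.mp h1 with ⟨rfl, rfl⟩ | ⟨rfl, rfl⟩
      · have := v4.adj_slot (C.σ g) (by rw [u3]; exact n2.symm)
        rwa [u3] at this
      · have := v4.adj_slot (C.σ g) (by rw [u3]; exact n2.symm)
        rw [u3] at this
        exact this.symm
  obtain ⟨r1, r2⟩ := (h.tf ht).sw_reachable hg hp hsep
  refine ⟨C4, v4, fun a => ?_, o4, fun a b hab => (r1 a b hab).mono hle, r2.mono hle⟩
  by_cases h1 : a = g
  · rw [h1, u1]
    exact n1.symm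
  by_cases h2 : a = C.σ g
  · rw [h2, u3]
    exact n2.symm
  by_cases h3 : a = p
  · rw [h3, u2]
    exact n1
  by_cases h4 : a = C.σ p
  · rw [h4, u4]
    exact n2
  rw [(o4 a h1 h2 h3 h4).1]
  exact ht a

/-- situations of the merging phase -/
structure MSit (l : V → V → ι) (good : V × ι → V × ι → Prop) (C₀ C : Conf V ι)
    (T : Finset V) : Prop where
  valid : C.Valid l
  notok : ∀ a, C.σ a ≠ a
  labout : ∀ x, x.1 ∉ T → C.lab x = C₀.lab x
  sigout : ∀ x, x.1 ∉ T → C.σ x = C₀.σ x
  comp : ∀ v, ∃ g, C.graph.Reachable v g.1 ∧ GSlot good C T g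

theorem Sit.toMSit {l : V → V → ι} {good : V × ι → V × ι → Prop} {C₀ C : Conf V ι}
    {T : Finset V} (h : Sit l good C₀ C T ∅) (ht : ∀ a, C.σ a ≠ a) : MSit l good C₀ C T := by
  refine ⟨h.valid, ht, h.labout, fun x hx => h.sigout x hx (Set.notMem_empty x), fun v => ?_⟩
  obtain ⟨w, hw, hw2⟩ := h.reach v
  rcases hw2 with hw2 | ⟨i, hi⟩
  · obtain ⟨i, hi⟩ := h.goodT w hw2
    exact ⟨(w, i), hw, hi⟩
  · exact absurd hi (ht (w, i))

/-- the hypothesis of the merging phase -/
def MergeHyp [Fintype V] (l : V → V → ι) (good : V × ι → V × ι → Prop) (C₀ : Conf V ι)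
    (Wd : V × Bool → Prop) (m : ℕ) : Prop :=
  ∀ s s', good s s' → ∀ X T : Finset V, T.card ≤ m → 2 * X.card ≤ Fintype.card V →
    (∀ x : V × Bool, x.1 ∈ X → x.1 ∉ T → (C₀.σ x).1 ∈ X) →
    ∃ p, Wd p ∧ p.1 ∉ T ∧ (C₀.σ p).1 ∉ T ∧ p.1 ∉ X ∧
      ((J l s (C₀.st p) ∧ J l s' (C₀.st (C₀.σ p))) ∨ (J l s (C₀.st (C₀.σ p)) ∧ J l s' (C₀.st p)))

/-- one merging step -/
theorem MSit.step [Fintype V] {l : V → V → ι} {good : V × ι → V × ι → Prop} {C₀ C : Conf V ι}
    {Wd : V × Bool → Prop} {m : ℕ}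
    (hM : MergeHyp l good C₀ Wd m) {T : Finset V} (h : MSit l good C₀ C T) (hm : T.card ≤ m)
    (hnc : ∃ a b, ¬ C.graph.Reachable a b) :
    ∃ C' T', MSit l good C₀ C' T' ∧ T'.card ≤ T.card + 2 ∧
      (∀ a b, C.graph.Reachable a b → C'.graph.Reachable a b) ∧
      ∃ a b, ¬ C.graph.Reachable a b ∧ C'.graph.Reachable a b := by
  classical
  -- a small component
  obtain ⟨v, hv⟩ : ∃ v, 2 * (univ.filter fun w => C.graph.Reachable v w).card ≤
      Fintype.card V := by
    obtain ⟨a, b, hab⟩ := hnc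
    by_contra hcon
    push Not at hcon
    have h1 := hcon a
    have h2 := hcon b
    have h3 : Disjoint (univ.filter fun w => C.graph.Reachable a w)
        (univ.filter fun w => C.graph.Reachable b w) := by
      rw [Finset.disjoint_left]
      intro w hw1 hw2
      rw [Finset.mem_filter] at hw1 hw2
      exact hab (hw1.2.trans hw2.2.symm)
    have h4 := Finset.card_union_of_disjoint h3
    have h5 := Finset.card_le_univ ((univ.filter fun w => C.graph.Reachable a w) ∪
      (univ.filter fun w => C.graph.Reachable b w))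
    omega
  set X : Finset V := univ.filter fun w => C.graph.Reachable v w with hX
  have hmX : ∀ w, w ∈ X ↔ C.graph.Reachable v w := by
    intro w
    simp [hX]
  obtain ⟨g, hgX, hg1, hg2, hg3, hg4⟩ := h.comp v
  obtain ⟨p, hp, hpT, hqT, hpX, hJ⟩ := hM _ _ hg4 X T hm hv (by
    intro x hx hxT
    rw [hmX] at hx ⊢
    rw [← h.sigout x hxT]
    exact hx.trans (h.valid.adj_slot x (h.notok x)).reachable)
  have hsp : C.σ p = C₀.σ p := h.sigout p hpT
  have hsq : C.σ (C₀.σ p) = p := by
    rw [← hsp, h.valid.inv]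
  have hstp : C.st p = C₀.st p := by
    unfold Conf.st
    rw [h.labout (flip p) hpT]
  have hstq : C.st (C₀.σ p) = C₀.st (C₀.σ p) := by
    unfold Conf.st
    rw [h.labout (flip (C₀.σ p)) hqT]
  have hqX : (C₀.σ p).1 ∉ X := by
    intro h1
    apply hpX
    rw [hmX] at h1 ⊢
    rw [← hsp] at h1
    exact h1.trans (h.valid.adj_slot p (h.notok p)).symm.reachable
  -- the slot to be used
  obtain ⟨r, hrT, hrT', hrX, hrX', hJ1, hJ2⟩ : ∃ r, r.1 ∉ T ∧ (C.σ r).1 ∉ T ∧ r.1 ∉ X ∧
      (C.σ r).1 ∉ X ∧ J l (C.st g) (C.st r) ∧ J l (C.st (C.σ g)) (C.st (C.σ r)) := by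
    rcases hJ with ⟨hJ1, hJ2⟩ | ⟨hJ1, hJ2⟩
    · refine ⟨p, hpT, by rw [hsp]; exact hqT, hpX, by rw [hsp]; exact hqX, ?_, ?_⟩
      · rw [hstp]
        exact hJ1
      · rw [hsp, hstq]
        exact hJ2
    · refine ⟨C₀.σ p, hqT, by rw [hsq]; exact hpT, hqX, by rw [hsq]; exact hpX, ?_, ?_⟩
      · rw [hstq]
        exact hJ1
      · rw [hsq, hstp]
        exact hJ2
  have hgX' : g.1 ∈ X := (hmX _).mpr hgX
  have hsgX : (C.σ g).1 ∈ X := by
    rw [hmX]
    exact hgX.trans (h.valid.adj_slot g hg1).reachable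
  have hsep : ¬ C.graph.Reachable g.1 r.1 := by
    intro h1
    exact hrX ((hmX _).mpr (hgX.trans h1))
  obtain ⟨C', hv', hnt', hout, hmono, hr⟩ := merge_one h.valid h.notok hsep hJ1 hJ2
  -- slots over untouched vertices are unchanged
  have houtT : ∀ x : V × Bool, x.1 ∉ insert r.1 (insert (C.σ r).1 T) →
      C'.σ x = C.σ x ∧ C'.lab x = C.lab x ∧ x.1 ∉ T := by
    intro x hx
    simp only [Finset.mem_insert, not_or] at hx
    obtain ⟨e1, e2⟩ := hout x (fun e => hx.2.2 (by rw [e]; exact hg2))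
      (fun e => hx.2.2 (by rw [e]; exact hg3)) (fun e => hx.1 (by rw [e]))
      (fun e => hx.2.1 (congrArg Prod.fst e))
    exact ⟨e1, e2, hx.2.2⟩
  -- good slots outside `X` stay good
  have hgood : ∀ k : V × Bool, GSlot good C T k → k.1 ∉ X →
      GSlot good C' (insert r.1 (insert (C.σ r).1 T)) k := by
    rintro k ⟨k1, k2, k3, k4⟩ kX
    have kX' : (C.σ k).1 ∉ X := by
      intro e
      apply kX
      rw [hmX] at e ⊢
      exact e.trans (h.valid.adj_slot k k1).symm.reachable
    have hk : ∀ x : V × Bool, x.1 ∈ T → x.1 ∉ X → C'.σ x = C.σ x ∧ C'.lab x = C.lab x := by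
      intro x hxT hxX
      exact hout x (fun e => hxX (by rw [e]; exact hgX')) (fun e => hxX (by rw [e]; exact hsgX))
        (fun e => hrT (by rw [← e]; exact hxT)) (fun e => hrT' (by rw [← e]; exact hxT))
    have e1 := (hk k k2 kX).1
    have e2 : C'.st k = C.st k := by
      unfold Conf.st
      rw [(hk (flip k) k2 kX).2]
    have e3 : C'.st (C.σ k) = C.st (C.σ k) := by
      unfold Conf.st
      rw [(hk (flip (C.σ k)) k3 kX').2]
    unfold GSlot
    rw [e1, e2, e3]
    exact ⟨k1, Finset.mem_insert_of_mem (Finset.mem_insert_of_mem k2),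
      Finset.mem_insert_of_mem (Finset.mem_insert_of_mem k3), k4⟩
  refine ⟨C', insert r.1 (insert (C.σ r).1 T), ⟨hv', hnt', fun x hx => ?_, fun x hx => ?_,
    fun w => ?_⟩, ?_, hmono, g.1, r.1, hsep, hr⟩
  · obtain ⟨e1, e2, e3⟩ := houtT x hx
    rw [e2]
    exact h.labout x e3
  · obtain ⟨e1, e2, e3⟩ := houtT x hx
    rw [e1]
    exact h.sigout x e3
  · obtain ⟨k, hk1, hk2⟩ := h.comp w
    by_cases hkX : k.1 ∈ X
    · -- `w` is in `X`: it reaches the good slot of the other component
      obtain ⟨k', hk1', hk2'⟩ := h.comp r.1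
      have hkX' : k'.1 ∉ X := by
        intro e
        apply hrX
        rw [hmX] at e ⊢
        exact e.trans hk1'.symm
      refine ⟨k', ?_, hgood k' hk2' hkX'⟩
      have e1 : C.graph.Reachable w g.1 := by
        rw [hmX] at hkX
        exact hk1.trans (hkX.symm.trans hgX)
      exact (hmono _ _ e1).trans (hr.trans (hmono _ _ hk1'))
    · exact ⟨k, hmono _ _ hk1, hgood k hk2 hkX⟩
  · have e1 := Finset.card_insert_le r.1 (insert (C.σ r).1 T)
    have e2 := Finset.card_insert_le (C.σ r).1 T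
    omega

/-- all cycles are merged -/
theorem MSit.connect [Fintype V] [Nonempty V] {l : V → V → ι} {good : V × ι → V × ι → Prop}
    {C₀ : Conf V ι} {Wd : V × Bool → Prop} {m : ℕ}
    (hM : MergeHyp l good C₀ Wd m) (N : ℕ) : ∀ (C : Conf V ι) (T : Finset V),
    MSit l good C₀ C T → Nat.card C.graph.ConnectedComponent = N → T.card + 2 * N ≤ m →
    ∃ C' : Conf V ι, C'.Valid l ∧ (∀ a, C'.σ a ≠ a) ∧ C'.graph.Connected := by
  classical
  induction N using Nat.strong_induction_on with
  | _ N ih =>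
    intro C T h hN hm
    by_cases hnc : ∃ a b, ¬ C.graph.Reachable a b
    · obtain ⟨C', T', h1, h2, h3, a, b, h4, h5⟩ := h.step hM (by omega) hnc
      have hlt : Nat.card C'.graph.ConnectedComponent < Nat.card C.graph.ConnectedComponent := by
        let f : C.graph.ConnectedComponent → C'.graph.ConnectedComponent :=
          Quot.lift (fun v => C'.graph.connectedComponentMk v) (fun v w hvw => by
            rw [ConnectedComponent.eq]
            exact h3 v w hvw)
        have hf1 : Function.Surjective f := by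
          intro c
          induction c using ConnectedComponent.ind with
          | _ v => exact ⟨C.graph.connectedComponentMk v, rfl⟩
        have hf2 : ¬ Function.Injective f := by
          intro hinj
          apply h4
          rw [← ConnectedComponent.eq]
          apply hinj
          show C'.graph.connectedComponentMk a = C'.graph.connectedComponentMk b
          rw [ConnectedComponent.eq]
          exact h5
        have : Fintype C.graph.ConnectedComponent := Fintype.ofFinite _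
        have : Fintype C'.graph.ConnectedComponent := Fintype.ofFinite _
        rw [Nat.card_eq_fintype_card, Nat.card_eq_fintype_card]
        exact Fintype.card_lt_of_surjective_not_injective f hf1 hf2
      exact ih _ (by omega) C' T' h1 rfl (by omega)
    · push Not at hnc
      exact ⟨C, h.valid, h.notok, ⟨fun a b => hnc a b⟩⟩

/-- the number of components is at most the number of touched vertices -/
theorem MSit.card_comp [Fintype V] {l : V → V → ι} {good : V × ι → V × ι → Prop}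
    {C₀ C : Conf V ι} {T : Finset V} (h : MSit l good C₀ C T) :
    Nat.card C.graph.ConnectedComponent ≤ T.card := by
  classical
  have : Fintype C.graph.ConnectedComponent := Fintype.ofFinite _
  rw [Nat.card_eq_fintype_card, ← Fintype.card_coe]
  refine Fintype.card_le_of_surjective
    (fun w : T => C.graph.connectedComponentMk w.1) fun c => ?_
  induction c using ConnectedComponent.ind with
  | _ v =>
    obtain ⟨g, hg1, hg2, hg3, hg4⟩ := h.comp v
    refine ⟨⟨g.1, hg3⟩, ?_⟩
    show C.graph.connectedComponentMk g.1 = C.graph.connectedComponentMk v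
    rw [ConnectedComponent.eq]
    exact hg1.symm

end H59.BE
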