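import Pool.Agent.H59.BE.EConf

/-!
# Engine, part 2: situations

`Sit l good C₀ C T F`: the configuration `C` has been obtained from `C₀` by exchanges at the
vertices of `T`; `F` is the set of the tokens that come from edges removed in the current step.
-/

set_option autoImplicit false

namespace H59.BE

open SimpleGraph

variable {V ι : Type*}

/-- a good slot -/
def GSlot (good : V × ι → V × ι → Prop) (C : Conf V ι) (T : Finset V) (g : V × Bool) : Prop :=
  C.σ g ≠ g ∧ g.1 ∈ T ∧ (C.σ g).1 ∈ T ∧ good (C.st g) (C.st (C.σ g))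

/-- a situation -/
structure Sit (l : V → V → ι) (good : V × ι → V × ι → Prop) (C₀ C : Conf V ι) (T : Finset V)
    (F : Set (V × Bool)) : Prop where
  valid : C.Valid l
  labout : ∀ x, x.1 ∉ T → C.lab x = C₀.lab x
  sigout : ∀ x, x.1 ∉ T → x ∉ F → C.σ x = C₀.σ x
  fresh : ∀ x ∈ F, x.1 ∉ T ∧ C.σ x = x ∧ C₀.σ x ≠ x ∧ C₀.σ (flip x) ≠ flip x ∧ flip x ∉ F
  keep : ∀ x, C₀.σ x = x → C.lab x = C₀.lab x ∧ C.lab (flip x) = C₀.lab (flip x)
  goodT : ∀ v ∈ T, ∃ i, GSlot good C T (v, i)
  reach : ∀ v, ∃ w, C.graph.Reachable v w ∧ (w ∈ T ∨ ∃ i, C.σ (w, i) = (w, i))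

theorem Sit.st_out {l : V → V → ι} {good : V × ι → V × ι → Prop} {C₀ C : Conf V ι}
    {T : Finset V} {F : Set (V × Bool)} (h : Sit l good C₀ C T F) {x : V × Bool} (hx : x.1 ∉ T) :
    C.st x = C₀.st x := by
  unfold Conf.st
  rw [h.labout (flip x) hx]

theorem Sit.st_keep {l : V → V → ι} {good : V × ι → V × ι → Prop} {C₀ C : Conf V ι}
    {T : Finset V} {F : Set (V × Bool)} (h : Sit l good C₀ C T F) {x : V × Bool}
    (hx : C₀.σ x = x) : C.st x = C₀.st x := by
  unfold Conf.st
  rw [(h.keep x hx).2]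

/-- reaching special vertices survives changes at special vertices -/
theorem reach_of_agree {l : V → V → ι} {C C' : Conf V ι} (h : C.Valid l) (h' : C'.Valid l)
    {S S' : Set V} (hS : S ⊆ S') (hag : ∀ x : V × Bool, x.1 ∉ S' → C'.σ x = C.σ x)
    (hr : ∀ v, ∃ w, C.graph.Reachable v w ∧ (w ∈ S ∨ ∃ i, C.σ (w, i) = (w, i))) (v : V) :
    ∃ w, C'.graph.Reachable v w ∧ (w ∈ S' ∨ ∃ i, C'.σ (w, i) = (w, i)) := by
  obtain ⟨w, ⟨W⟩, hw⟩ := hr v
  induction W with
  | nil =>
    rename_i u
    by_cases hu : u ∈ S'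
    · exact ⟨u, Reachable.refl _, Or.inl hu⟩
    · rcases hw with hw | ⟨i, hi⟩
      · exact absurd (hS hw) hu
      · exact ⟨u, Reachable.refl _, Or.inr ⟨i, by rw [hag (u, i) hu, hi]⟩⟩
  | cons hadj _ ih =>
    rename_i u b c _
    by_cases hu : u ∈ S'
    · exact ⟨u, Reachable.refl _, Or.inl hu⟩
    · obtain ⟨w, hw1, hw2⟩ := ih hw
      refine ⟨w, Reachable.trans (Adj.reachable ?_) hw1, hw2⟩
      rw [h.adj] at hadj
      rw [h'.adj]
      obtain ⟨hne, i, hi⟩ := hadj
      exact ⟨hne, i, by rw [hag (u, i) hu, hi]⟩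

section

variable [DecidableEq V]

/-- removing a window edge -/
theorem Sit.cut {l : V → V → ι} {good : V × ι → V × ι → Prop} {C₀ C : Conf V ι}
    {T : Finset V} {F : Set (V × Bool)} (h₀ : C₀.Valid l) (h : Sit l good C₀ C T F)
    {p : V × Bool} (hp : C₀.σ p ≠ p) (hp' : C₀.σ (flip p) ≠ flip p)
    (hq' : C₀.σ (flip (C₀.σ p)) ≠ flip (C₀.σ p)) (hpT : p.1 ∉ T) (hqT : (C₀.σ p).1 ∉ T)
    (hpF : ∀ x ∈ F, x.1 ≠ p.1 ∧ x.1 ≠ (C₀.σ p).1) :
    C.σ p = C₀.σ p ∧ Sit l good C₀ (C.cut p) T (F ∪ {p, C₀.σ p}) := by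
  have hpnF : p ∉ F := fun h1 => (hpF p h1).1 rfl
  have hsp : C.σ p = C₀.σ p := h.sigout p hpT hpnF
  have hne : (C₀.σ p).1 ≠ p.1 := h₀.ne p hp
  refine ⟨hsp, h.valid.cut p, h.labout, fun x hx hxF => ?_, fun x hx => ?_, h.keep,
    fun v hv => ?_, ?_⟩
  · simp only [Set.mem_union, Set.mem_insert_iff, Set.mem_singleton_iff, not_or] at hxF
    rw [Conf.cut_sig_of_ne hxF.2.1 (by rw [hsp]; exact hxF.2.2)]
    exact h.sigout x hx hxF.1
  · simp only [Set.mem_union, Set.mem_insert_iff, Set.mem_singleton_iff] at hx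
    have hfl : ∀ y : V × Bool, flip y ∉ F → flip y ≠ p → flip y ≠ C₀.σ p →
        flip y ∉ F ∪ {p, C₀.σ p} := by
      intro y h1 h2 h3
      simp only [Set.mem_union, Set.mem_insert_iff, Set.mem_singleton_iff, not_or]
      exact ⟨h1, h2, h3⟩
    rcases hx with hx | hx | hx
    · obtain ⟨h1, h2, h3, h4, h5⟩ := h.fresh x hx
      obtain ⟨h6, h7⟩ := hpF x hx
      refine ⟨h1, ?_, h3, h4, hfl x h5 ?_ ?_⟩
      · rw [Conf.cut_sig_of_ne, h2]
        · rintro rfl
          exact h6 rfl
        · rintro rfl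
          exact h7 (by rw [hsp])
      · intro h8
        exact h6 (by rw [← h8]; rfl)
      · intro h8
        exact h7 (by rw [← h8]; rfl)
    · subst hx
      refine ⟨hpT, Conf.cut_sig_left _ _, hp, hp', hfl x ?_ (flip_ne x) ?_⟩
      · intro h8
        exact (hpF _ h8).1 rfl
      · intro h8
        exact hne (by rw [← h8]; rfl)
    · subst hx
      refine ⟨hqT, ?_, h₀.sig_ne hp, hq', hfl _ ?_ ?_ (flip_ne _)⟩
      · have := Conf.cut_sig_right C p
        rwa [hsp] at this
      · intro h8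
        exact (hpF _ h8).2 rfl
      · intro h8
        have h9 : (flip (C₀.σ p)).1 = p.1 := congrArg Prod.fst h8
        exact hne h9
  · obtain ⟨i, h1, h2, h3, h4⟩ := h.goodT v hv
    have h5 : (v, i) ≠ p := by
      intro h5
      exact hpT (by rw [← h5]; exact hv)
    have h6 : (v, i) ≠ C.σ p := by
      intro h6
      apply hqT
      rw [← hsp, ← h6]
      exact hv
    refine ⟨i, ?_⟩
    unfold GSlot
    rw [Conf.cut_sig_of_ne h5 h6]
    exact ⟨h1, h2, h3, h4⟩
  · intro v
    have hkey := reach_of_agree (C' := C.cut p) h.valid (h.valid.cut p) (S := (T : Set V))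
      (S' := (T : Set V) ∪ {p.1, (C₀.σ p).1}) Set.subset_union_left ?_ ?_ v
    · obtain ⟨w, hw, hw2⟩ := hkey
      refine ⟨w, hw, ?_⟩
      rcases hw2 with (hw2 | hw2) | hw2
      · exact Or.inl hw2
      · right
        rcases hw2 with rfl | rfl
        · exact ⟨p.2, Conf.cut_sig_left C p⟩
        · refine ⟨(C₀.σ p).2, ?_⟩
          have := Conf.cut_sig_right C p
          rw [hsp] at this
          exact this
      · exact Or.inr hw2
    · intro x hx
      simp only [Set.mem_union, Set.mem_insert_iff, Set.mem_singleton_iff, not_or] at hx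
      apply Conf.cut_sig_of_ne
      · rintro rfl
        exact hx.2.1 rfl
      · rintro rfl
        exact hx.2.2 (by rw [hsp])
    · intro v
      obtain ⟨w, hw, hw2⟩ := h.reach v
      exact ⟨w, hw, hw2⟩

/-- joining two tokens, each either fresh or a token of `C₀` that keeps its label -/
theorem Sit.link {l : V → V → ι} {good : V × ι → V × ι → Prop} (hsymm : ∀ s t, good s t → good t s)
    {C₀ C : Conf V ι} {T : Finset V} {F : Set (V × Bool)} (h : Sit l good C₀ C T F)
    {a b : V × Bool} (hJ : J l (C.st a) (C.st b)) (hg : good (C.st a) (C.st b))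
    (ha : a ∈ F ∨ (C₀.σ a = a ∧ C.σ a = a ∧ l a.1 b.1 = C.lab a))
    (hb : b ∈ F ∨ (C₀.σ b = b ∧ C.σ b = b ∧ l b.1 a.1 = C.lab b)) :
    Sit l good C₀ (C.link l a b) (insert a.1 (insert b.1 T)) (F \ {a, b}) := by
  have hta : C.σ a = a := by
    rcases ha with ha | ha
    · exact (h.fresh a ha).2.1
    · exact ha.2.1
  have htb : C.σ b = b := by
    rcases hb with hb | hb
    · exact (h.fresh b hb).2.1
    · exact hb.2.1
  have hne : a.1 ≠ b.1 := hJ.1
  have hab : a ≠ b := fun h3 => hne (by rw [h3])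
  have hfab : flip a ≠ b := fun h3 => hne (by rw [← h3, flip_fst])
  have hfba : flip b ≠ a := fun h3 => hne (by rw [← h3, flip_fst])
  -- a token over `T` keeps its label
  have hlabT : ∀ x : V × Bool, x.1 ∈ T → (C.link l a b).lab x = C.lab x := by
    intro x hx
    by_cases hxa : x = a
    · subst hxa
      rw [Conf.link_lab_left]
      rcases ha with ha | ha
      · exact absurd hx (h.fresh x ha).1
      · exact ha.2.2
    by_cases hxb : x = b
    · subst hxb
      rw [Conf.link_lab_right hab]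
      rcases hb with hb | hb
      · exact absurd hx (h.fresh x hb).1
      · exact hb.2.2
    exact Conf.link_lab_of_ne hxa hxb
  -- tokens of `C₀` and their flips keep their labels
  have hlab0 : ∀ x : V × Bool, (C₀.σ x = x ∨ C₀.σ (flip x) = flip x) →
      (C.link l a b).lab x = C.lab x := by
    intro x hx
    by_cases hxa : x = a
    · subst hxa
      rw [Conf.link_lab_left]
      rcases ha with ha | ha
      · obtain ⟨_, _, h3, h4, _⟩ := h.fresh x ha
        rcases hx with hx | hx
        · exact absurd hx h3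
        · exact absurd hx h4
      · exact ha.2.2
    by_cases hxb : x = b
    · subst hxb
      rw [Conf.link_lab_right hab]
      rcases hb with hb | hb
      · obtain ⟨_, _, h3, h4, _⟩ := h.fresh x hb
        rcases hx with hx | hx
        · exact absurd hx h3
        · exact absurd hx h4
      · exact hb.2.2
    exact Conf.link_lab_of_ne hxa hxb
  have hsta : (C.link l a b).st a = C.st a := by
    unfold Conf.st
    rw [Conf.link_lab_of_ne (flip_ne a) hfab]
  have hstb : (C.link l a b).st b = C.st b := by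
    unfold Conf.st
    rw [Conf.link_lab_of_ne hfba (flip_ne b)]
  have hvalid := h.valid.link hta htb hJ
  have hout : ∀ x : V × Bool, x.1 ∉ insert a.1 (insert b.1 T) → x ≠ a ∧ x ≠ b ∧ x.1 ∉ T := by
    intro x hx
    simp only [Finset.mem_insert, not_or] at hx
    exact ⟨fun h1 => hx.1 (by rw [h1]), fun h1 => hx.2.1 (by rw [h1]), hx.2.2⟩
  refine ⟨hvalid, fun x hx => ?_, fun x hx hxF => ?_, fun x hx => ?_, fun x hx => ?_,
    fun v hv => ?_, fun v => ?_⟩
  · obtain ⟨h1, h2, h3⟩ := hout x hx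
    rw [Conf.link_lab_of_ne h1 h2]
    exact h.labout x h3
  · obtain ⟨h1, h2, h3⟩ := hout x hx
    rw [Conf.link_sig_of_ne h1 h2]
    refine h.sigout x h3 fun h4 => hxF ⟨h4, ?_⟩
    simp [h1, h2]
  · obtain ⟨hxF, hx2⟩ := hx
    simp only [Set.mem_insert_iff, Set.mem_singleton_iff, not_or] at hx2
    obtain ⟨h1, h2, h3, h4, h5⟩ := h.fresh x hxF
    refine ⟨?_, ?_, h3, h4, fun h6 => h5 h6.1⟩
    · simp only [Finset.mem_insert, not_or]
      refine ⟨fun h6 => ?_, fun h6 => ?_, h1⟩
      · rcases eq_or_flip h6 with h7 | h7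
        · exact hx2.1 h7
        · rcases ha with ha | ha
          · rw [h7, flip_flip] at h5
            exact h5 ha
          · rw [h7, flip_flip] at h4
            exact h4 ha.1
      · rcases eq_or_flip h6 with h7 | h7
        · exact hx2.2 h7
        · rcases hb with hb | hb
          · rw [h7, flip_flip] at h5
            exact h5 hb
          · rw [h7, flip_flip] at h4
            exact h4 hb.1
    · rw [Conf.link_sig_of_ne hx2.1 hx2.2, h2]
  · rw [hlab0 x (Or.inl hx), hlab0 (flip x) (Or.inr (by rw [flip_flip]; exact hx))]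
    exact h.keep x hx
  · have hup : ∀ v' ∈ T, ∃ i, GSlot good (C.link l a b) (insert a.1 (insert b.1 T)) (v', i) := by
      intro v' hv'
      obtain ⟨i, h1, h2, h3, h4⟩ := h.goodT v' hv'
      have h5 : (v', i) ≠ a := by
        intro h5
        rw [h5] at h1
        exact h1 hta
      have h6 : (v', i) ≠ b := by
        intro h6
        rw [h6] at h1
        exact h1 htb
      have h7 : (C.link l a b).st (v', i) = C.st (v', i) := by
        unfold Conf.st
        rw [hlabT _ (by exact h2)]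
      have h8 : (C.link l a b).st (C.σ (v', i)) = C.st (C.σ (v', i)) := by
        unfold Conf.st
        rw [hlabT _ (by exact h3)]
      refine ⟨i, ?_⟩
      unfold GSlot
      rw [Conf.link_sig_of_ne h5 h6, h7, h8]
      exact ⟨h1, Finset.mem_insert_of_mem (Finset.mem_insert_of_mem h2),
        Finset.mem_insert_of_mem (Finset.mem_insert_of_mem h3), h4⟩
    rcases Finset.mem_insert.mp hv with hv | hv
    · subst hv
      refine ⟨a.2, ?_⟩
      show GSlot good (C.link l a b) (insert a.1 (insert b.1 T)) a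
      unfold GSlot
      rw [Conf.link_sig_left, hsta, hstb]
      exact ⟨hab.symm, Finset.mem_insert_self _ _,
        Finset.mem_insert_of_mem (Finset.mem_insert_self _ _), hg⟩
    rcases Finset.mem_insert.mp hv with hv | hv
    · subst hv
      refine ⟨b.2, ?_⟩
      show GSlot good (C.link l a b) (insert a.1 (insert b.1 T)) b
      unfold GSlot
      rw [Conf.link_sig_right hab, hsta, hstb]
      exact ⟨hab, Finset.mem_insert_of_mem (Finset.mem_insert_self _ _),
        Finset.mem_insert_self _ _, hsymm _ _ hg⟩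
    · exact hup v hv
  · refine reach_of_agree h.valid hvalid (S := (T : Set V))
      (S' := (↑(insert a.1 (insert b.1 T)) : Set V)) ?_ ?_ ?_ v
    · intro w hw
      exact Finset.mem_coe.mpr
        (Finset.mem_insert_of_mem (Finset.mem_insert_of_mem (Finset.mem_coe.mp hw)))
    · intro x hx
      obtain ⟨h1, h2, _⟩ := hout x (fun h4 => hx (Finset.mem_coe.mpr h4))
      exact Conf.link_sig_of_ne h1 h2
    · intro v
      obtain ⟨w, hw, hw2⟩ := h.reach v
      exact ⟨w, hw, hw2⟩

end

end H59.BE
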