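import Pool.Agent.H59.BE.Merge

/-!
# A connected compatible 2-factor is a compatible Hamilton cycle
-/

set_option autoImplicit false

namespace H59.BE

open SimpleGraph

variable {V ι : Type*}

/-- A connected compatible 2-factor gives a Hamilton cycle, as a periodic enumeration of the
vertices in which consecutive edges have different labels. -/
theorem TF.hamilton [Fintype V] {κ : V → V → ι} {H : SimpleGraph V} (h : TF κ H)
    (hc : H.Connected) :
    ∃ f : ℕ → V, (∀ i, f (i + Fintype.card V) = f i) ∧
      (∀ i j, i < Fintype.card V → j < Fintype.card V → f i = f j → i = j) ∧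
      ∀ i, κ (f (i + 1)) (f i) ≠ κ (f (i + 1)) (f (i + 2)) := by
  classical
  obtain ⟨v⟩ := hc.nonempty
  obtain ⟨a, b, hab, hκ, hw⟩ := h v
  have hn : (H.neighborSet v).Nonempty := ⟨a, (hw a).mpr (Or.inl rfl)⟩
  obtain ⟨p, hp, hv⟩ := h.isCycles.exists_cycle_toSubgraph_verts_eq_connectedComponentSupp
    (c := H.connectedComponentMk v) rfl hn
  have hall : ∀ w, w ∈ p.support := by
    intro w
    have h1 : w ∈ (H.connectedComponentMk v).supp := by
      rw [ConnectedComponent.mem_supp_iff, ConnectedComponent.eq]
      exact hc.preconnected w v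
    rw [← hv] at h1
    exact p.mem_verts_toSubgraph.mp h1
  have hlen3 : 3 ≤ p.length := hp.three_le_length
  have hinj : Set.InjOn p.getVert {i | i ≤ p.length - 1} := hp.getVert_injOn'
  have hcard : Fintype.card V = p.length := by
    have h1 : (Finset.range p.length).image p.getVert = Finset.univ := by
      refine Finset.eq_univ_iff_forall.mpr fun w => ?_
      obtain ⟨i, hi, hi'⟩ := p.mem_support_iff_exists_getVert.mp (hall w)
      rcases hi'.lt_or_eq with hlt | heq
      · exact Finset.mem_image.mpr ⟨i, Finset.mem_range.mpr hlt, hi⟩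
      · refine Finset.mem_image.mpr ⟨0, Finset.mem_range.mpr (by omega), ?_⟩
        rw [Walk.getVert_zero, ← hi, heq, Walk.getVert_length]
    rw [← Finset.card_univ, ← h1, Finset.card_image_of_injOn, Finset.card_range]
    intro i hi j hj hij
    have hi' := Finset.mem_range.mp (Finset.mem_coe.mp hi)
    have hj' := Finset.mem_range.mp (Finset.mem_coe.mp hj)
    exact hinj (show i ≤ p.length - 1 by omega) (show j ≤ p.length - 1 by omega) hij
  rw [hcard]
  set n := p.length with hndef
  have hmod : ∀ i, i % n < n := fun i => Nat.mod_lt _ (by omega)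
  have hf : ∀ i, H.Adj (p.getVert (i % n)) (p.getVert ((i + 1) % n)) := by
    intro i
    have h1 := p.adj_getVert_succ (hmod i)
    by_cases h2 : i % n + 1 < n
    · have h3 : (i + 1) % n = i % n + 1 := by
        rw [Nat.add_mod, Nat.mod_eq_of_lt (show 1 < n by omega), Nat.mod_eq_of_lt h2]
      rwa [h3]
    · have h4 : i % n + 1 = n := by
        have := hmod i
        omega
      have h3 : (i + 1) % n = 0 := by
        rw [Nat.add_mod, Nat.mod_eq_of_lt (show 1 < n by omega), h4, Nat.mod_self]
      rw [h3, Walk.getVert_zero]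
      rw [h4, hndef, Walk.getVert_length] at h1
      exact h1
  have hinj' : ∀ i j, p.getVert (i % n) = p.getVert (j % n) → i % n = j % n := by
    intro i j hij
    have hi := hmod i
    have hj := hmod j
    exact hinj (show i % n ≤ n - 1 by omega) (show j % n ≤ n - 1 by omega) hij
  refine ⟨fun i => p.getVert (i % n), fun i => by simp, fun i j hi hj hij => ?_, fun i => ?_⟩
  · have := hinj' i j hij
    rwa [Nat.mod_eq_of_lt hi, Nat.mod_eq_of_lt hj] at this
  · have h1 := hf i
    have h2 := hf (i + 1)
    have h3 : p.getVert (i % n) ≠ p.getVert ((i + 1 + 1) % n) := by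
      intro h4
      have h5 := hinj' _ _ h4
      have h6 : (i + 2) % n = (i + 0) % n := by simpa using h5.symm
      have h7 : 2 % n = 0 % n := Nat.ModEq.add_left_cancel' i h6
      rw [Nat.mod_eq_of_lt (by omega), Nat.zero_mod] at h7
      omega
    obtain ⟨a, b, hab, hκ, hw⟩ := h (p.getVert ((i + 1) % n))
    have h4 := (hw _).mp h1.symm
    have h5 := (hw _).mp h2
    rcases h4 with h4 | h4 <;> rcases h5 with h5 | h5
    · exact absurd (h4.trans h5.symm) h3
    · show κ _ (p.getVert (i % n)) ≠ κ _ (p.getVert ((i + 2) % n))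
      rw [h4, show (i + 2) % n = (i + 1 + 1) % n from rfl, h5]
      exact hκ
    · show κ _ (p.getVert (i % n)) ≠ κ _ (p.getVert ((i + 2) % n))
      rw [h4, show (i + 2) % n = (i + 1 + 1) % n from rfl, h5]
      exact hκ.symm
    · exact absurd (h4.trans h5.symm) h3

end H59.BE
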