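import Mathlib

/-!
# Merging cycles of a compatible 2-factor by 2-switches

`TF κ H`: every vertex has exactly two `H`-neighbours and they have different labels.
`sw H u v x y`: replace the edges `uv`, `xy` by `ux`, `vy`.
`exists_connected`: if every disconnected graph with the property `P` can be changed into one with
more connected pairs, then there is a connected graph with the property `P`.
-/

set_option autoImplicit false

namespace H59.BE

open SimpleGraph

variable {V ι : Type*}

/-- compatible 2-factor -/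
def TF (κ : V → V → ι) (H : SimpleGraph V) : Prop :=
  ∀ v, ∃ a b, a ≠ b ∧ κ v a ≠ κ v b ∧ ∀ w, H.Adj v w ↔ (w = a ∨ w = b)

/-- replace `uv`, `xy` by `ux`, `vy` -/
def sw (H : SimpleGraph V) (u v x y : V) : SimpleGraph V :=
  (H.deleteEdges {s(u, v), s(x, y)}) ⊔ fromEdgeSet {s(u, x), s(v, y)}

theorem TF.isCycles {κ : V → V → ι} {H : SimpleGraph V} (h : TF κ H) : H.IsCycles := by
  intro v _
  obtain ⟨a, b, hab, _, hw⟩ := h v
  have : H.neighborSet v = {a, b} := by
    ext w
    simp [hw]
  rw [this, Set.ncard_pair hab]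

theorem sw_adj {H : SimpleGraph V} {u v x y : V} (hux : u ≠ x) (hvy : v ≠ y) (p q : V) :
    (sw H u v x y).Adj p q ↔ (H.Adj p q ∧ s(p, q) ≠ s(u, v) ∧ s(p, q) ≠ s(x, y)) ∨
      s(p, q) = s(u, x) ∨ s(p, q) = s(v, y) := by
  simp only [sw, sup_adj, deleteEdges_adj, Set.mem_insert_iff, Set.mem_singleton_iff,
    fromEdgeSet_adj, not_or]
  constructor
  · rintro (h | ⟨h, _⟩)
    · exact Or.inl h
    · exact Or.inr h
  · rintro (h | h | h)
    · exact Or.inl h
    · refine Or.inr ⟨Or.inl h, ?_⟩
      rintro rfl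
      rcases Sym2.eq_iff.mp h with ⟨h1, h2⟩ | ⟨h1, h2⟩
      · exact hux (h1.symm.trans h2)
      · exact hux (h2.symm.trans h1)
    · refine Or.inr ⟨Or.inr h, ?_⟩
      rintro rfl
      rcases Sym2.eq_iff.mp h with ⟨h1, h2⟩ | ⟨h1, h2⟩
      · exact hvy (h1.symm.trans h2)
      · exact hvy (h2.symm.trans h1)

/-- the conditions for a switch at one vertex `u`: the neighbour `v` is replaced by `x` -/
def Ok (κ : V → V → ι) (H : SimpleGraph V) (u v x : V) : Prop :=
  ∀ w, H.Adj u w → w ≠ v → κ u w ≠ κ u x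

theorem TF.repl {κ : V → V → ι} {H H' : SimpleGraph V} (h : TF κ H) {u v x : V}
    (huv : H.Adj u v) (hok : Ok κ H u v x)
    (hH : ∀ w, H'.Adj u w ↔ (H.Adj u w ∧ w ≠ v) ∨ w = x) :
    ∃ a b, a ≠ b ∧ κ u a ≠ κ u b ∧ ∀ w, H'.Adj u w ↔ (w = a ∨ w = b) := by
  obtain ⟨a, b, hab, hκ, hw⟩ := h u
  rcases (hw v).mp huv with rfl | rfl
  · have hb : κ u b ≠ κ u x := hok b ((hw b).mpr (Or.inr rfl)) hab.symm
    refine ⟨x, b, fun h => hb (by rw [h]), hb.symm, fun w => ?_⟩
    rw [hH, hw]
    constructor
    · rintro (⟨h1 | h1, h2⟩ | h1)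
      · exact absurd h1 h2
      · exact Or.inr h1
      · exact Or.inl h1
    · rintro (h1 | h1)
      · exact Or.inr h1
      · exact Or.inl ⟨Or.inr h1, by rw [h1]; exact hab.symm⟩
  · have ha : κ u a ≠ κ u x := hok a ((hw a).mpr (Or.inl rfl)) hab
    refine ⟨a, x, fun h => ha (by rw [h]), ha, fun w => ?_⟩
    rw [hH, hw]
    constructor
    · rintro (⟨h1 | h1, h2⟩ | h1)
      · exact Or.inl h1
      · exact absurd h1 h2
      · exact Or.inr h1
    · rintro (h1 | h1)
      · exact Or.inl ⟨Or.inl h1, by rw [h1]; exact hab⟩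
      · exact Or.inr h1

/-- a valid 2-switch of a compatible 2-factor is a compatible 2-factor -/
theorem TF.sw {κ : V → V → ι} {H : SimpleGraph V} (h : TF κ H) {u v x y : V}
    (huv : H.Adj u v) (hxy : H.Adj x y) (hux : u ≠ x) (huy : u ≠ y) (hvx : v ≠ x) (hvy : v ≠ y)
    (hu : Ok κ H u v x) (hv : Ok κ H v u y) (hx : Ok κ H x y u) (hy : Ok κ H y x v) :
    TF κ (sw H u v x y) := by
  classical
  have huv' := huv.ne
  have hxy' := hxy.ne
  intro p
  by_cases hpu : p = u
  · subst hpu
    refine h.repl huv hu fun w => ?_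
    rw [sw_adj hux hvy]
    simp only [ne_eq, Sym2.eq_iff, true_and, not_or]
    grind
  by_cases hpv : p = v
  · subst hpv
    refine h.repl huv.symm hv fun w => ?_
    rw [sw_adj hux hvy]
    simp only [ne_eq, Sym2.eq_iff, true_and, not_or]
    grind
  by_cases hpx : p = x
  · subst hpx
    refine h.repl hxy hx fun w => ?_
    rw [sw_adj hux hvy]
    simp only [ne_eq, Sym2.eq_iff, true_and, not_or]
    grind
  by_cases hpy : p = y
  · subst hpy
    refine h.repl hxy.symm hy fun w => ?_
    rw [sw_adj hux hvy]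
    simp only [ne_eq, Sym2.eq_iff, true_and, not_or]
    grind
  · obtain ⟨a, b, hab, hκ, hw⟩ := h p
    refine ⟨a, b, hab, hκ, fun w => ?_⟩
    rw [sw_adj hux hvy, ← hw]
    simp only [ne_eq, Sym2.eq_iff, hpu, hpv, hpx, hpy, false_and, or_false, not_false_eq_true,
      and_true, or_self]

/-- after a switch between two different cycles everything that was connected stays connected and
the two cycles are joined -/
theorem TF.sw_reachable [Finite V] {κ : V → V → ι} {H : SimpleGraph V} (h : TF κ H) {u v x y : V}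
    (huv : H.Adj u v) (hxy : H.Adj x y) (hsep : ¬ H.Reachable u x) :
    (∀ a b, H.Reachable a b → (BE.sw H u v x y).Reachable a b) ∧
      (BE.sw H u v x y).Reachable u x := by
  classical
  have hux : u ≠ x := by
    rintro rfl
    exact hsep (Reachable.refl _)
  have hvy : v ≠ y := by
    rintro rfl
    exact hsep (huv.reachable.trans hxy.symm.reachable)
  -- an edge of `H` that is removed can be avoided
  have key : ∀ (p q r s : V), H.Adj p q → H.Adj r s → ¬ H.Reachable p r →
      (H.deleteEdges {s(p, q), s(r, s)}).Reachable p q := by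
    intro p q r s hpq hrs hpr
    have h1 := IsCycles.reachable_deleteEdges hpq h.isCycles
    obtain ⟨W⟩ := h1
    have h2 : ∀ e ∈ W.edges, e ≠ s(r, s) := by
      rintro e he rfl
      have hr : r ∈ W.support := W.fst_mem_support_of_mem_edges he
      refine hpr ?_
      exact ⟨(W.takeUntil r hr).mapLe (deleteEdges_le _)⟩
    have h3 : ∀ e ∈ (W.mapLe (deleteEdges_le {s(p, q)})).edges,
        e ∉ ({s(p, q), s(r, s)} : Set (Sym2 V)) := by
      intro e he
      have he' : e ∈ W.edges := by simpa using he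
      have h4 : e ∈ (H.deleteEdges {s(p, q)}).edgeSet := W.edges_subset_edgeSet he'
      rw [edgeSet_deleteEdges] at h4
      have h5 : e ≠ s(p, q) := h4.2
      have h6 : e ≠ s(r, s) := h2 e he'
      intro h7
      rcases h7 with h7 | h7
      · exact h5 h7
      · exact h6 h7
    exact ⟨(W.mapLe (deleteEdges_le {s(p, q)})).toDeleteEdges _ h3⟩
  have hle : H.deleteEdges {s(u, v), s(x, y)} ≤ BE.sw H u v x y := le_sup_left
  have k1 : (BE.sw H u v x y).Reachable u v := (key u v x y huv hxy hsep).mono hle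
  have k2 : (BE.sw H u v x y).Reachable x y := by
    have := key x y u v hxy huv (fun h => hsep h.symm)
    rw [Set.pair_comm] at this
    exact this.mono hle
  have k3 : (BE.sw H u v x y).Adj u x := by
    rw [sw_adj hux hvy]
    exact Or.inr (Or.inl rfl)
  refine ⟨?_, k3.reachable⟩
  rintro a b ⟨W⟩
  induction W with
  | nil => exact Reachable.refl _
  | cons hadj _ ih =>
    rename_i a' b' c' _
    refine Reachable.trans ?_ ih
    by_cases h1 : s(a', b') = s(u, v)
    · rcases Sym2.eq_iff.mp h1 with ⟨rfl, rfl⟩ | ⟨rfl, rfl⟩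
      · exact k1
      · exact k1.symm
    by_cases h2 : s(a', b') = s(x, y)
    · rcases Sym2.eq_iff.mp h2 with ⟨rfl, rfl⟩ | ⟨rfl, rfl⟩
      · exact k2
      · exact k2.symm
    · refine Adj.reachable ?_
      rw [sw_adj hux hvy]
      exact Or.inl ⟨hadj, h1, h2⟩

/-- from local merging to a connected graph -/
theorem exists_connected [Finite V] [Nonempty V] (P : SimpleGraph V → Prop)
    (step : ∀ H, P H → (∃ a b, ¬ H.Reachable a b) → ∃ H', P H' ∧
      (∀ a b, H.Reachable a b → H'.Reachable a b) ∧ ∃ a b, ¬ H.Reachable a b ∧ H'.Reachable a b)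
    (H₀ : SimpleGraph V) (h₀ : P H₀) : ∃ H, P H ∧ H.Connected := by
  classical
  have : ∀ (k : ℕ) (H : SimpleGraph V), P H →
      {p : V × V | ¬ H.Reachable p.1 p.2}.ncard = k → ∃ H, P H ∧ H.Connected := by
    intro k
    induction k using Nat.strong_induction_on with
    | _ k ih =>
      intro H hP hk
      by_cases hc : ∃ a b, ¬ H.Reachable a b
      · obtain ⟨H', hP', hmono, a, b, hab, hab'⟩ := step H hP hc
        refine ih _ ?_ H' hP' rfl
        rw [← hk]
        refine Set.ncard_lt_ncard ?_ (Set.toFinite _)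
        refine ⟨fun p hp hp' => hp (hmono _ _ hp'), fun hsub => ?_⟩
        exact hsub (show (a, b) ∈ {p : V × V | ¬ H.Reachable p.1 p.2} from hab) hab'
      · push Not at hc
        exact ⟨H, hP, ⟨fun a b => hc a b⟩⟩
  exact this _ H₀ h₀ rfl

end H59.BE
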