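import Pool.Agent.H59.BE.Chk

/-!
# The opening lemma, combinatorial form

In every closed cyclic sequence of at least three valid vertex types with the coupling condition a
nonempty set of edges can be removed such that the sum of suitable options is zero.
-/

set_option autoImplicit false

namespace H59.BE

open Finset

/-- partial choice up to the edge `i`; `f`, `s` say whether the edges `0` and `i` are removed -/
def Reach (τ : ℕ → Ty) (i : ℕ) (f s : Bool) (g : Gp) : Prop :=
  ∃ (R : ℕ → Bool) (w : ℕ → List Gn), R 0 = f ∧ R i = s ∧ (∃ j ≤ i, R j = true) ∧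
    (∀ j < i, w j ∈ opts (τ j) (R j) (R (j + 1))) ∧ ∑ j ∈ range i, lval (w j) = g

theorem reach_step {τ : ℕ → Ty} {i : ℕ} {f s s' : Bool} {g : Gp} {o : List Gn}
    (h : Reach τ i f s g) (ho : o ∈ opts (τ i) s s') : Reach τ (i + 1) f s' (g + lval o) := by
  obtain ⟨R, w, h0, hi, ⟨j, hj, hRj⟩, hw, hs⟩ := h
  have hne : ∀ j, j ≤ i → Function.update R (i + 1) s' j = R j := fun j hj =>
    Function.update_of_ne (by omega) _ _
  refine ⟨Function.update R (i + 1) s', Function.update w i o, ?_, ?_, ⟨j, by omega, ?_⟩, ?_, ?_⟩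
  · rw [hne 0 (Nat.zero_le _)]
    exact h0
  · simp
  · rw [hne j hj]
    exact hRj
  · intro j hj
    rcases Nat.lt_succ_iff_lt_or_eq.mp hj with hlt | rfl
    · rw [hne j hlt.le, hne (j + 1) hlt, Function.update_of_ne hlt.ne]
      exact hw j hlt
    · rw [hne j le_rfl, hi]
      simpa using ho
  · rw [sum_range_succ]
    have : ∑ j ∈ range i, lval (Function.update w i o j) = g := by
      rw [← hs]
      refine sum_congr rfl fun j hj => ?_
      rw [Function.update_of_ne (mem_range.mp hj).ne]
    rw [this]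
    simp

theorem reach_start {τ : ℕ → Ty} {i : ℕ} {o : List Gn} (ho : o ∈ opts (τ i) false true) :
    Reach τ (i + 1) false true (lval o) := by
  refine ⟨fun j => decide (j = i + 1), fun j => if j = i then o else [], by simp, by simp,
    ⟨i + 1, le_rfl, by simp⟩, ?_, ?_⟩
  · intro j hj
    by_cases h : j = i
    · subst h
      simpa using ho
    · have h1 : j ≠ i + 1 := by omega
      simp [h, h1, opts]
  · rw [sum_range_succ]
    have : ∑ j ∈ range i, lval ((fun j => if j = i then o else []) j) = 0 := by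
      refine sum_eq_zero fun j hj => ?_
      simp [(mem_range.mp hj).ne, lval]
    rw [this]
    simp

theorem reach_base {τ : ℕ → Ty} {f s : Bool} {o : List Gn} (hfs : f = true ∨ s = true)
    (ho : o ∈ opts (τ 0) f s) : Reach τ 1 f s (lval o) := by
  refine ⟨fun j => if j = 0 then f else s, fun _ => o, by simp, by simp, ?_, ?_, by simp⟩
  · rcases hfs with h | h
    · exact ⟨0, by omega, by simpa using h⟩
    · exact ⟨1, le_rfl, by simpa using h⟩
  · intro j hj
    have : j = 0 := by omega
    subst this
    simpa using ho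

theorem reach_ext {τ : ℕ → Ty} {i k : ℕ} {f : Bool} {g : Gp} (h : Reach τ i f false g)
    (hik : i ≤ k) : Reach τ k f false g := by
  induction k, hik using Nat.le_induction with
  | base => exact h
  | succ k _ ih =>
    have := reach_step (s' := false) (o := []) ih (by simp [opts])
    simpa [lval] using this

/-- the four families of reachable sums of a state -/
structure Inv (τ : ℕ → Ty) (i : ℕ) (s : St) : Prop where
  K : ∀ g, s.K.Mem g → Reach τ i false false g
  R : ∀ g, s.R.Mem g → Reach τ i false true g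
  KF : ∀ g, s.KF.Mem g → Reach τ i true false g
  RF : ∀ g, s.RF.Mem g → Reach τ i true true g

/-- options of `t'` are options of `t` -/
structure Sub (t t' : Ty) : Prop where
  L : ∀ g ∈ optL t', g ∈ optL t
  R : ∀ g ∈ optR t', g ∈ optR t
  B : ∀ g ∈ opt2 t', g ∈ opt2 t

theorem lval_one (g : Gn) : lval [g] = g.val := by simp [lval]

theorem lval_two (g h : Gn) : lval [g, h] = g.val + h.val := by simp [lval]

theorem Inv.init {τ : ℕ → Ty} {t' : Ty} (h : Sub (τ 0) t') : Inv τ 1 (St.init t') := by
  refine ⟨?_, ?_, ?_, ?_⟩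
  · intro g hg
    exact absurd hg fun h => M4.not_mem_zero h
  · intro g hg
    obtain ⟨t, ht, g', hg', rfl⟩ := M4.mem_addL hg
    rw [M4.mem_one hg', zero_add, ← lval_one]
    exact reach_base (Or.inr rfl) (List.mem_map_of_mem (h.R t ht))
  · intro g hg
    obtain ⟨t, ht, g', hg', rfl⟩ := M4.mem_addL hg
    rw [M4.mem_one hg', zero_add, ← lval_one]
    exact reach_base (Or.inl rfl) (List.mem_map_of_mem (h.L t ht))
  · intro g hg
    obtain ⟨t, ht, g', hg', rfl⟩ := M4.mem_addP hg
    rw [M4.mem_one hg', zero_add, ← lval_two]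
    exact reach_base (Or.inl rfl) (List.mem_map_of_mem (f := fun p => [p.1, p.2]) (h.B t ht))

theorem Inv.step {τ : ℕ → Ty} {i : ℕ} {s : St} {t' : Ty} (H : Inv τ i s)
    (h : Sub (τ i) t') : Inv τ (i + 1) (s.step t') := by
  have hL : ∀ t ∈ optL t', [t] ∈ opts (τ i) true false := fun t ht =>
    List.mem_map_of_mem (h.L t ht)
  have hR : ∀ t ∈ optR t', [t] ∈ opts (τ i) false true := fun t ht =>
    List.mem_map_of_mem (h.R t ht)
  have hB : ∀ t ∈ opt2 t', [t.1, t.2] ∈ opts (τ i) true true := fun t ht =>
    List.mem_map_of_mem (f := fun p => [p.1, p.2]) (h.B t ht)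
  have h0 : ([] : List Gn) ∈ opts (τ i) false false := by simp [opts]
  refine ⟨?_, ?_, ?_, ?_⟩
  · intro g hg
    rcases M4.mem_uni hg with hg | hg
    · have := reach_step (H.K g hg) h0
      simpa [lval] using this
    · obtain ⟨t, ht, g', hg', rfl⟩ := M4.mem_addL hg
      rw [← lval_one]
      exact reach_step (H.R g' hg') (hL t ht)
  · intro g hg
    rcases M4.mem_uni hg with hg | hg
    · obtain ⟨t, ht, g', hg', rfl⟩ := M4.mem_addL hg
      rw [← lval_one]
      rcases M4.mem_uni hg' with hg' | hg'
      · rw [M4.mem_one hg', zero_add]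
        exact reach_start (hR t ht)
      · exact reach_step (H.K g' hg') (hR t ht)
    · obtain ⟨t, ht, g', hg', rfl⟩ := M4.mem_addP hg
      rw [← lval_two]
      exact reach_step (H.R g' hg') (hB t ht)
  · intro g hg
    rcases M4.mem_uni hg with hg | hg
    · have := reach_step (H.KF g hg) h0
      simpa [lval] using this
    · obtain ⟨t, ht, g', hg', rfl⟩ := M4.mem_addL hg
      rw [← lval_one]
      exact reach_step (H.RF g' hg') (hL t ht)
  · intro g hg
    rcases M4.mem_uni hg with hg | hg
    · obtain ⟨t, ht, g', hg', rfl⟩ := M4.mem_addL hg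
      rw [← lval_one]
      exact reach_step (H.KF g' hg') (hR t ht)
    · obtain ⟨t, ht, g', hg', rfl⟩ := M4.mem_addP hg
      rw [← lval_two]
      exact reach_step (H.RF g' hg') (hB t ht)

/-- kinds agree, or both are exceptional -/
def simK (k k' : Kd) : Bool := k' = k || !(k = .mc || k = .cm || k' = .mc || k' = .cm)

theorem nst_sim : ∀ (same : Bool) (k1 k1' k2 k2' : Kd) (c : Cls), simK k1 k1' = true →
    simK k2 k2' = true → nst same k1' k2' c = nst same k1 k2 c := by
  decide +kernel

/-- everything about a dominating minimal type -/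
structure Dom (t t' : Ty) : Prop extends Sub t t' where
  hL : t'.L = t.L
  hR : t'.R = t.R
  hk : simK t.k t'.k = true

theorem exists_dom {same : Bool} {t : Ty} (h : valid same t = true) :
    ∃ t' ∈ nxt same t.L, Dom t t' := by
  obtain ⟨t', h1, h2⟩ := dom_all same t h
  refine ⟨t', h1, ?_⟩
  simp only [dom, Bool.and_eq_true, decide_eq_true_eq, List.all_eq_true] at h2
  obtain ⟨⟨⟨⟨⟨h3, h4⟩, h5⟩, h6⟩, h7⟩, h8⟩ := h2
  exact ⟨⟨h6, h7, h8⟩, h3, h4, h5⟩

theorem coup_dom {same : Bool} {p v p' v' : Ty} (hp : Dom p p') (hv : Dom v v')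
    (h : coup same p v = true) : coup same p' v' = true := by
  simp only [coup, Bool.and_eq_true, decide_eq_true_eq] at h ⊢
  refine ⟨by rw [hp.hR, hv.hL, h.1], ?_⟩
  rw [hv.hL, nst_sim same _ _ _ _ _ hp.hk hv.hk]
  exact h.2

theorem chk_sound {same : Bool} {k : ℕ} {τ : ℕ → Ty} (hk : 3 ≤ k)
    (hv : ∀ j < k, valid same (τ j) = true)
    (hc : ∀ j, j + 1 < k → coup same (τ j) (τ (j + 1)) = true)
    (hcl : coup same (τ (k - 1)) (τ 0) = true) {t0 : Ty} (ht0 : Dom (τ 0) t0) :
    ∀ (fuel i : ℕ) (last : Ty) (s : St), 1 ≤ i → i < k → Dom (τ (i - 1)) last → Inv τ i s →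
      chk same fuel i t0 last s = true →
      (Reach τ k false false 0 ∨ Reach τ k true true 0) := by
  intro fuel
  induction fuel with
  | zero =>
    intro i last s _ _ _ _ h
    simp [chk] at h
  | succ fuel ih =>
    intro i last s hi hik hlast hinv h
    obtain ⟨t, ht, hdom⟩ := exists_dom (hv i hik)
    have hci : coup same (τ (i - 1)) (τ i) = true := by
      have := hc (i - 1) (by omega)
      rwa [Nat.sub_add_cancel hi] at this
    have hcc := coup_dom hlast hdom hci
    simp only [coup, Bool.and_eq_true, decide_eq_true_eq] at hcc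
    simp only [chk, List.all_eq_true] at h
    have hmem : t ∈ nxt same last.R := by
      rw [hcc.1, hdom.hL]
      exact ht
    have h1 := h t hmem
    rw [hcc.2] at h1
    simp only [Bool.not_true, Bool.false_or, Bool.or_eq_true, Bool.and_eq_true] at h1
    rcases h1 with h1 | ⟨h1, h2⟩
    · left
      obtain ⟨g, hg, g', hg', hsum⟩ := M4.mem_zinL h1
      have hmem2 : [g] ∈ opts (τ i) true false := List.mem_map_of_mem (hdom.L g hg)
      have := reach_step (hinv.R g' hg') hmem2
      rw [lval_one, hsum] at this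
      exact reach_ext this (by omega)
    · have hinv' := hinv.step hdom.toSub
      by_cases hlt : i + 1 < k
      · exact ih (i + 1) t (s.step t) (by omega) hlt (by simpa using hdom) hinv' h2
      · have hk' : i + 1 = k := by omega
        right
        have hcl' : coup same t t0 = true := by
          refine coup_dom hdom ht0 ?_
          have : k - 1 = i := by omega
          rwa [this] at hcl
        have h2i : Nat.blt i 2 = false := by
          rw [Bool.eq_false_iff]
          intro hb
          have := Nat.blt_eq.mp hb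
          omega
        rw [hcl', h2i] at h1
        have h1' : (s.step t).RF.zin = true := by simpa using h1
        have := hinv'.RF 0 (M4.mem_of_zin h1')
        rwa [hk'] at this

/-- **Opening lemma** (combinatorial form). -/
theorem opening (same : Bool) {k : ℕ} (hk : 3 ≤ k) (τ : ℕ → Ty)
    (hv : ∀ j < k, valid same (τ j) = true)
    (hc : ∀ j, j + 1 < k → coup same (τ j) (τ (j + 1)) = true)
    (hcl : coup same (τ (k - 1)) (τ 0) = true) :
    ∃ (R : ℕ → Bool) (w : ℕ → List Gn), R k = R 0 ∧ (∃ j < k, R j = true) ∧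
      (∀ j < k, w j ∈ opts (τ j) (R j) (R (j + 1))) ∧ ∑ j ∈ range k, lval (w j) = 0 := by
  obtain ⟨t0, h0, hdom0⟩ := exists_dom (hv 0 (by omega))
  have := chk_sound hk hv hc hcl hdom0 8 1 t0 (St.init t0) le_rfl (by omega)
    (by simpa using hdom0) (Inv.init hdom0.toSub) (chk_all same _ t0 h0)
  rcases this with ⟨R, w, h1, h2, ⟨j, hj, hRj⟩, h4, h5⟩ | ⟨R, w, h1, h2, _, h4, h5⟩
  · refine ⟨R, w, by rw [h1, h2], ⟨j, lt_of_le_of_ne hj ?_, hRj⟩, h4, h5⟩
    rintro rfl
    rw [h2] at hRj
    exact absurd hRj (by simp)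
  · exact ⟨R, w, by rw [h1, h2], ⟨0, by omega, h1⟩, h4, h5⟩

end H59.BE
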